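import Mathlib

/-!
Integer arithmetic for the family of semigroups generated by
`g + a N^2 + b (N+1)^2 + c N (N+1)`, `a, b, c ∈ {0, 1}`, `g = N^3 + (N+1)^3`.
-/

namespace Pool.Agent.Lib.MP_36a309_al

/-- value of a lattice point -/
def val (n h x y z : ℤ) : ℤ :=
  h * (n ^ 3 + (n + 1) ^ 3) + x * n ^ 2 + y * (n + 1) ^ 2 + z * (n * (n + 1))

/-- the cone over the cube -/
def InCone (h x y z : ℤ) : Prop := 0 ≤ x ∧ x ≤ h ∧ 0 ≤ y ∧ y ≤ h ∧ 0 ≤ z ∧ z ≤ h

/-- integers represented by points of the cone -/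
def Rep (n m : ℤ) : Prop := ∃ h x y z, InCone h x y z ∧ val n h x y z = m

/-- first piece of the fundamental domain -/
def Vx (n x y z : ℤ) : Prop :=
  0 ≤ y ∧ y ≤ n ∧ 0 ≤ z ∧ z ≤ n ∧ y ≤ x ∧ x ≤ y + n ∧ z ≤ x ∧ x ≤ z + n

/-- second piece of the fundamental domain -/
def Vy (n x y z : ℤ) : Prop :=
  0 ≤ x ∧ x ≤ n - 1 ∧ 0 ≤ z ∧ z ≤ n - 1 ∧ x ≤ y ∧ y ≤ x + n + 1 ∧ z ≤ y ∧ y ≤ z + n + 1

/-- third piece of the fundamental domain -/
def Vz (n x y z : ℤ) : Prop :=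
  0 ≤ x ∧ x ≤ n - 1 ∧ 0 ≤ y ∧ y ≤ n ∧ x ≤ z ∧ z ≤ x + n + 1 ∧ y ≤ z ∧ z ≤ y + n

/-- integers with a representative in the fundamental domain -/
def Dom (n m : ℤ) : Prop :=
  ∃ h x y z, (Vx n x y z ∨ Vy n x y z ∨ Vz n x y z) ∧ val n h x y z = m

/-- the Frobenius number -/
def frobN (n : ℤ) : ℤ := val n (2 * n - 1) (2 * n) n n

lemma val_shift (n h x y z i j k : ℤ) :
    val n (h - i) (x + i * n + k * (n + 1)) (y + i * (n + 1) + j * n) (z - j * (n + 1) - k * n) =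
      val n h x y z := by
  unfold val; ring

lemma dom_of_shift {n m : ℤ} (h x y z i j k : ℤ) (hv : val n h x y z = m) {x' y' z' : ℤ}
    (hx : x' = x + i * n + k * (n + 1)) (hy : y' = y + i * (n + 1) + j * n)
    (hz : z' = z - j * (n + 1) - k * n) (hd : Vx n x' y' z' ∨ Vy n x' y' z' ∨ Vz n x' y' z') :
    Dom n m := by
  refine ⟨h - i, x', y', z', hd, ?_⟩
  rw [hx, hy, hz, val_shift, hv]

lemma dom_add_x {n m : ℤ} (hn : 2 ≤ n) (hm : Dom n m) : Dom n (m + n ^ 2) := by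
  obtain ⟨h, x, y, z, hd, hv⟩ := hm
  have hv' : val n h (x + 1) y z = m + n ^ 2 := by rw [← hv]; unfold val; ring
  rcases hd with hd | hd | hd
  · have : Vx n (x + 1) y z ∨ Vz n (x - n) y (z + n) ∨ Vy n (x - n) (y + n) (z - 1) ∨
        Vy n (x - 2 * n) (y - 1) (z - 1) := by
      unfold Vx Vy Vz at *; omega
    rcases this with h1 | h1 | h1 | h1
    · exact ⟨h, _, _, _, Or.inl h1, hv'⟩
    · exact dom_of_shift h _ _ _ 0 0 (-1) hv' (by ring) (by ring) (by ring) (Or.inr (Or.inr h1))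
    · exact dom_of_shift h _ _ _ 0 1 (-1) hv' (by ring) (by ring) (by ring) (Or.inr (Or.inl h1))
    · exact dom_of_shift h _ _ _ (-1) 1 (-1) hv' (by ring) (by ring) (by ring)
        (Or.inr (Or.inl h1))
  · have : (Vx n (x + 1) y z ∨ Vy n (x + 1) y z ∨ Vz n (x + 1) y z) ∨
        (Vx n (x + 1 - n) (y - n - 1) z ∨ Vy n (x + 1 - n) (y - n - 1) z ∨
          Vz n (x + 1 - n) (y - n - 1) z) := by
      unfold Vx Vy Vz at *; omega
    rcases this with h1 | h1
    · exact ⟨h, _, _, _, h1, hv'⟩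
    · exact dom_of_shift h _ _ _ (-1) 0 0 hv' (by ring) (by ring) (by ring) h1
  · have : (Vx n (x + 1) y z ∨ Vy n (x + 1) y z ∨ Vz n (x + 1) y z) ∨
        (Vx n (x + 1 - n) (y - 1) (z - n - 1) ∨ Vy n (x + 1 - n) (y - 1) (z - n - 1)) := by
      unfold Vx Vy Vz at *; omega
    rcases this with h1 | h1 | h1
    · exact ⟨h, _, _, _, h1, hv'⟩
    · exact dom_of_shift h _ _ _ (-1) 1 0 hv' (by ring) (by ring) (by ring) (Or.inl h1)
    · exact dom_of_shift h _ _ _ (-1) 1 0 hv' (by ring) (by ring) (by ring) (Or.inr (Or.inl h1))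

lemma dom_add_y {n m : ℤ} (hn : 2 ≤ n) (hm : Dom n m) : Dom n (m + (n + 1) ^ 2) := by
  obtain ⟨h, x, y, z, hd, hv⟩ := hm
  have hv' : val n h x (y + 1) z = m + (n + 1) ^ 2 := by rw [← hv]; unfold val; ring
  rcases hd with hd | hd | hd
  · have : (Vx n x (y + 1) z ∨ Vy n x (y + 1) z) ∨
        (Vx n (x - n) (y - n) z ∨ Vz n (x - n) (y - n) z) := by
      unfold Vx Vy Vz at *; omega
    rcases this with (h1 | h1) | h1 | h1
    · exact ⟨h, _, _, _, Or.inl h1, hv'⟩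
    · exact ⟨h, _, _, _, Or.inr (Or.inl h1), hv'⟩
    · exact dom_of_shift h _ _ _ (-1) 0 0 hv' (by ring) (by ring) (by ring) (Or.inl h1)
    · exact dom_of_shift h _ _ _ (-1) 0 0 hv' (by ring) (by ring) (by ring) (Or.inr (Or.inr h1))
  · have : Vy n x (y + 1) z ∨ Vz n x (y + 1 - n) (z + n + 1) ∨
        Vx n (x + n + 1) (y + 1 - n) (z + 1) ∨ Vx n (x + 1) (y - 2 * n) (z + 1) := by
      unfold Vx Vy Vz at *; omega
    rcases this with h1 | h1 | h1 | h1
    · exact ⟨h, _, _, _, Or.inr (Or.inl h1), hv'⟩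
    · exact dom_of_shift h _ _ _ 0 (-1) 0 hv' (by ring) (by ring) (by ring) (Or.inr (Or.inr h1))
    · exact dom_of_shift h _ _ _ 0 (-1) 1 hv' (by ring) (by ring) (by ring) (Or.inl h1)
    · exact dom_of_shift h _ _ _ (-1) (-1) 1 hv' (by ring) (by ring) (by ring) (Or.inl h1)
  · have : (Vx n x (y + 1) z ∨ Vy n x (y + 1) z ∨ Vz n x (y + 1) z) ∨
        Vx n (x + 1) (y - n) (z - n) := by
      unfold Vx Vy Vz at *; omega
    rcases this with h1 | h1
    · exact ⟨h, _, _, _, h1, hv'⟩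
    · exact dom_of_shift h _ _ _ (-1) 0 1 hv' (by ring) (by ring) (by ring) (Or.inl h1)

lemma dom_nat {n : ℤ} (hn : 2 ≤ n) (h : ℤ) (a b : ℕ) :
    Dom n (h * (n ^ 3 + (n + 1) ^ 3) + a * n ^ 2 + b * (n + 1) ^ 2) := by
  induction b with
  | zero =>
    induction a with
    | zero =>
      refine ⟨h, 0, 0, 0, Or.inl ?_, ?_⟩
      · unfold Vx; omega
      · unfold val; simp
    | succ a ih =>
      have := dom_add_x hn ih
      have e : h * (n ^ 3 + (n + 1) ^ 3) + ((a + 1 : ℕ) : ℤ) * n ^ 2 + ((0 : ℕ) : ℤ) * (n + 1) ^ 2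
          = h * (n ^ 3 + (n + 1) ^ 3) + (a : ℤ) * n ^ 2 + ((0 : ℕ) : ℤ) * (n + 1) ^ 2 + n ^ 2 := by
        push_cast; ring
      rw [e]; exact this
  | succ b ih =>
    have := dom_add_y hn ih
    have e : h * (n ^ 3 + (n + 1) ^ 3) + (a : ℤ) * n ^ 2 + ((b + 1 : ℕ) : ℤ) * (n + 1) ^ 2
        = h * (n ^ 3 + (n + 1) ^ 3) + (a : ℤ) * n ^ 2 + (b : ℤ) * (n + 1) ^ 2 + (n + 1) ^ 2 := by
      push_cast; ring
    rw [e]; exact this

lemma dom_all {n : ℤ} (hn : 2 ≤ n) (m : ℤ) : Dom n m := by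
  set g : ℤ := n ^ 3 + (n + 1) ^ 3 with hg
  have hg1 : 1 ≤ g := by
    have : 0 ≤ n ^ 3 := by positivity
    have : 1 ≤ (n + 1) ^ 3 := one_le_pow₀ (by omega)
    omega
  set u : ℤ := m * (3 + 2 * n) with hu
  set v : ℤ := m * (1 - 2 * n) with hv
  set t : ℤ := |u| + |v| with ht
  have ht0 : 0 ≤ t := by positivity
  have htg : t ≤ t * g := le_mul_of_one_le_right ht0 hg1
  have h1 : 0 ≤ u + t * g := by
    have := neg_abs_le u
    have := abs_nonneg v
    omega
  have h2 : 0 ≤ v + t * g := by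
    have := neg_abs_le v
    have := abs_nonneg u
    omega
  obtain ⟨a, ha⟩ := Int.eq_ofNat_of_zero_le h1
  obtain ⟨b, hb⟩ := Int.eq_ofNat_of_zero_le h2
  have := dom_nat hn (-t * (n ^ 2 + (n + 1) ^ 2)) a b
  rw [← ha, ← hb, ← hg] at this
  have e : -t * (n ^ 2 + (n + 1) ^ 2) * g + (u + t * g) * n ^ 2 + (v + t * g) * (n + 1) ^ 2 = m := by
    rw [hu, hv]; ring
  rwa [e] at this

lemma rep_or_rep {n : ℤ} (hn : 2 ≤ n) (m : ℤ) : Rep n m ∨ Rep n (frobN n - m) := by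
  obtain ⟨h, x, y, z, hd, hv⟩ := dom_all hn m
  rcases hd with hd | hd | hd
  · by_cases hh : x ≤ h
    · exact Or.inl ⟨h, x, y, z, by unfold InCone Vx at *; omega, hv⟩
    · refine Or.inr ⟨2 * n - 1 - h, 2 * n - x, n - y, n - z, by unfold InCone Vx at *; omega, ?_⟩
      rw [← hv]; unfold frobN val; ring
  · by_cases hh : y ≤ h
    · exact Or.inl ⟨h, x, y, z, by unfold InCone Vy at *; omega, hv⟩
    · refine Or.inr ⟨2 * n - 1 - h, n - 1 - x, 2 * n - y, n - 1 - z,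
        by unfold InCone Vy at *; omega, ?_⟩
      rw [← hv]; unfold frobN val; ring
  · by_cases hh : z ≤ h
    · exact Or.inl ⟨h, x, y, z, by unfold InCone Vz at *; omega, hv⟩
    · refine Or.inr ⟨2 * n - 1 - h, n - 1 - x, n - y, 2 * n - z,
        by unfold InCone Vz at *; omega, ?_⟩
      rw [← hv]; unfold frobN val; ring

/-- the relation lattice in a fixed height -/
lemma lattice0 {n x y z : ℤ} (hn : 2 ≤ n)
    (h : x * n ^ 2 + y * (n + 1) ^ 2 + z * (n * (n + 1)) = 0) :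
    ∃ j k : ℤ, x = k * (n + 1) ∧ y = j * n ∧ z = -j * (n + 1) - k * n := by
  have hy : y = (-(x * n) - y * (n + 2) - z * (n + 1)) * n := by linear_combination h
  set j := -(x * n) - y * (n + 2) - z * (n + 1) with hj
  have hn0 : n ≠ 0 := by omega
  have h2 : x * n + j * (n + 1) ^ 2 + z * (n + 1) = 0 := by
    apply mul_left_cancel₀ hn0
    rw [hy] at h
    linear_combination h
  have hx : x = (x + j * (n + 1) + z) * (n + 1) := by linear_combination -h2
  set k := x + j * (n + 1) + z with hk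
  refine ⟨j, k, hx, hy, ?_⟩
  have hn1 : n + 1 ≠ 0 := by omega
  apply mul_left_cancel₀ hn1
  rw [hx] at h2
  linear_combination h2

lemma val_lower {n h x y z : ℤ} (hn : 2 ≤ n) (hc : InCone h x y z) :
    h * (n ^ 3 + (n + 1) ^ 3) ≤ val n h x y z := by
  obtain ⟨h1, -, h3, -, h5, -⟩ := hc
  have hn0 : 0 ≤ n := by omega
  have : 0 ≤ x * n ^ 2 + y * (n + 1) ^ 2 + z * (n * (n + 1)) := by positivity
  unfold val; linarith

lemma val_upper {n h x y z : ℤ} (hn : 2 ≤ n) (hc : InCone h x y z) :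
    val n h x y z ≤ h * (2 * (n + 1) ^ 3) := by
  obtain ⟨-, h2, -, h4, -, h6⟩ := hc
  have hn0 : 0 ≤ n := by omega
  have a1 : x * n ^ 2 ≤ h * n ^ 2 := mul_le_mul_of_nonneg_right h2 (by positivity)
  have a2 : y * (n + 1) ^ 2 ≤ h * (n + 1) ^ 2 := mul_le_mul_of_nonneg_right h4 (by positivity)
  have a3 : z * (n * (n + 1)) ≤ h * (n * (n + 1)) := mul_le_mul_of_nonneg_right h6 (by positivity)
  unfold val; nlinarith

lemma mul_bound {k c lo hi : ℤ} (hc : 0 < c) (h1 : (lo - 1) * c < k * c)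
    (h2 : k * c < (hi + 1) * c) : lo ≤ k ∧ k ≤ hi := by
  have := lt_of_mul_lt_mul_right h1 hc.le
  have := lt_of_mul_lt_mul_right h2 hc.le
  omega

lemma not_rep_frob {n : ℤ} (hn : 2 ≤ n) : ¬ Rep n (frobN n) := by
  rintro ⟨h, x, y, z, hc, hv⟩
  have hlo := val_lower hn hc
  have hup := val_upper hn hc
  rw [hv] at hlo hup
  have hn0 : 0 < n := by omega
  have p2 : 0 < n ^ 2 := by positivity
  have p3 : 0 < n ^ 3 := by positivity
  have hF : frobN n = 4 * n ^ 4 + 8 * n ^ 3 + 6 * n ^ 2 - 1 := by unfold frobN val; ring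
  have hh1 : h < 2 * n + 1 := by
    have hg : 0 ≤ n ^ 3 + (n + 1) ^ 3 := by positivity
    apply lt_of_mul_lt_mul_right _ hg
    have : frobN n < (2 * n + 1) * (n ^ 3 + (n + 1) ^ 3) := by rw [hF]; nlinarith
    linarith
  have hh2 : 2 * n - 2 < h := by
    have hg : 0 ≤ 2 * (n + 1) ^ 3 := by positivity
    apply lt_of_mul_lt_mul_right _ hg
    have : (2 * n - 2) * (2 * (n + 1) ^ 3) < frobN n := by rw [hF]; nlinarith
    linarith
  obtain ⟨h1, h2, h3, h4, h5, h6⟩ := hc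
  have hcase : h = 2 * n - 1 ∨ h = 2 * n := by omega
  rcases hcase with rfl | rfl
  · obtain ⟨j, k, hx, hy, hz⟩ := lattice0 (x := x - 2 * n) (y := y - n) (z := z - n) hn
      (by unfold frobN val at hv; linear_combination hv)
    have hk : -1 ≤ k ∧ k ≤ -1 := mul_bound (c := n + 1) (by omega) (by linarith) (by linarith)
    obtain rfl : k = -1 := by omega
    have hj : 1 ≤ j ∧ j ≤ 1 := mul_bound (c := n + 1) (by omega) (by linarith) (by linarith)
    obtain rfl : j = 1 := by omega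
    omega
  · obtain ⟨j, k, hx, hy, hz⟩ := lattice0 (x := x - n) (y := y + 1) (z := z - n) hn
      (by unfold frobN val at hv; linear_combination hv)
    have hk : 0 ≤ k ∧ k ≤ 0 := mul_bound (c := n + 1) (by omega) (by linarith) (by linarith)
    obtain rfl : k = 0 := by omega
    have hj : 0 ≤ j ∧ j ≤ 0 := mul_bound (c := n + 1) (by omega) (by linarith) (by linarith)
    obtain rfl : j = 0 := by omega
    omega

lemma betti_fibre {n r h x y z : ℤ} (hn : 2 ≤ n) (hr1 : 1 ≤ r) (hr2 : r ≤ n - 1)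
    (hc : InCone h x y z) (hv : val n h x y z = val n (n + 1) r (n + 1) 0) :
    z = 0 ∨ z = h := by
  have hlo := val_lower hn hc
  have hup := val_upper hn hc
  rw [hv] at hlo hup
  have hn0 : 0 < n := by omega
  have p2 : 0 < n ^ 2 := by positivity
  have p3 : 0 < n ^ 3 := by positivity
  have hr3 : r * n ^ 2 ≤ (n - 1) * n ^ 2 := mul_le_mul_of_nonneg_right hr2 p2.le
  have hr4 : 0 ≤ r * n ^ 2 := by positivity
  have hh1 : h < n + 2 := by
    have hg : 0 ≤ n ^ 3 + (n + 1) ^ 3 := by positivity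
    apply lt_of_mul_lt_mul_right _ hg
    have : val n (n + 1) r (n + 1) 0 < (n + 2) * (n ^ 3 + (n + 1) ^ 3) := by
      unfold val; nlinarith
    linarith
  have hh2 : n < h := by
    have hg : 0 ≤ 2 * (n + 1) ^ 3 := by positivity
    apply lt_of_mul_lt_mul_right _ hg
    have : n * (2 * (n + 1) ^ 3) < val n (n + 1) r (n + 1) 0 := by
      unfold val; nlinarith
    linarith
  obtain rfl : h = n + 1 := by omega
  obtain ⟨h1, h2, h3, h4, h5, h6⟩ := hc
  obtain ⟨j, k, hx, hy, hz⟩ := lattice0 (x := x - r) (y := y - (n + 1)) (z := z) hn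
      (by unfold val at hv; linear_combination hv)
  have hk : 0 ≤ k ∧ k ≤ 0 := mul_bound (c := n + 1) (by omega) (by linarith) (by linarith)
  obtain rfl : k = 0 := by omega
  have hj : -1 ≤ j ∧ j ≤ 0 := mul_bound (c := n + 1) (by omega) (by linarith) (by linarith)
  have : j = -1 ∨ j = 0 := by omega
  rcases this with rfl | rfl
  · right; linarith
  · left; linarith

end Pool.Agent.Lib.MP_36a309_al
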