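import Pool.Agent.Lib.MP_36a309_al.Arith

/-!
Integer arithmetic for the semigroups generated by `g + a n^2 + b (n+1)^2 + c n (n+1)`,
`a, b, c ∈ {0, 1}`, `g = (n+1) n^2 + (n+1)^3`.
-/

set_option autoImplicit false

namespace Pool.Agent.Lib.MP_36a309_al.FamB

/-- value of a lattice point -/
def vl (n h x y z : ℤ) : ℤ :=
  h * ((n + 1) * n ^ 2 + (n + 1) ^ 3) + x * n ^ 2 + y * (n + 1) ^ 2 + z * (n * (n + 1))

/-- integers represented by points of the cone -/
def Rp (n m : ℤ) : Prop := ∃ h x y z, InCone h x y z ∧ vl n h x y z = m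

/-- first piece of the fundamental domain -/
def Wx (n x y z : ℤ) : Prop :=
  0 ≤ y ∧ y ≤ n ∧ 0 ≤ z ∧ z ≤ n ∧ y ≤ x ∧ x ≤ y + n ∧ z ≤ x ∧ x ≤ z + n

/-- second piece of the fundamental domain -/
def Wy (n x y z : ℤ) : Prop :=
  0 ≤ x ∧ x ≤ n ∧ 0 ≤ z ∧ z ≤ n - 1 ∧ x ≤ y ∧ y ≤ x + n + 1 ∧ z ≤ y ∧ y ≤ z + n + 1

/-- third piece of the fundamental domain -/
def Wz (n x y z : ℤ) : Prop :=
  0 ≤ x ∧ x ≤ n ∧ 0 ≤ y ∧ y ≤ n ∧ x ≤ z ∧ z ≤ x + n + 1 ∧ y ≤ z ∧ z ≤ y + n

/-- integers with a representative in the fundamental domain -/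
def Dm (n m : ℤ) : Prop := ∃ h x y z, (Wx n x y z ∨ Wy n x y z ∨ Wz n x y z) ∧ vl n h x y z = m

/-- the smaller pseudo-Frobenius number; the larger one is `pf n + n ^ 2` -/
def pf (n : ℤ) : ℤ := vl n (2 * n - 1) (2 * n) n n

theorem dm_add_x {n m : ℤ} (hn : 2 ≤ n) (hm : Dm n m) : Dm n (m + n ^ 2) := by
  obtain ⟨h, x, y, z, hd | hd | hd, rfl⟩ := hm
  · have : Wx n (x + 1) y z ∨ Wz n (x - n) y (z + n) ∨ Wy n (x - n) (y + n) (z - 1) := by
      unfold Wx Wy Wz at *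
      omega
    rcases this with k | k | k
    · exact ⟨h, _, _, _, .inl k, by unfold vl; ring⟩
    · exact ⟨h, _, _, _, .inr (.inr k), by unfold vl; ring⟩
    · exact ⟨h, _, _, _, .inr (.inl k), by unfold vl; ring⟩
  · have : Wx n (x + 1) y z ∨ Wy n (x + 1) y z ∨ Wz n (x - n) y (z + n) ∨
        Wz n (x - n) (y - n - 1) z := by
      unfold Wx Wy Wz at *
      omega
    rcases this with k | k | k | k
    · exact ⟨h, _, _, _, .inl k, by unfold vl; ring⟩
    · exact ⟨h, _, _, _, .inr (.inl k), by unfold vl; ring⟩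
    · exact ⟨h, _, _, _, .inr (.inr k), by unfold vl; ring⟩
    · exact ⟨h + 1, _, _, _, .inr (.inr k), by unfold vl; ring⟩
  · have : Wx n (x + 1) y z ∨ Wz n (x + 1) y z ∨ Wy n (x - n) (y + n) (z - 1) ∨
        Wy n (x - n) (y - 1) (z - n - 1) := by
      unfold Wx Wy Wz at *
      omega
    rcases this with k | k | k | k
    · exact ⟨h, _, _, _, .inl k, by unfold vl; ring⟩
    · exact ⟨h, _, _, _, .inr (.inr k), by unfold vl; ring⟩
    · exact ⟨h, _, _, _, .inr (.inl k), by unfold vl; ring⟩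
    · exact ⟨h + 1, _, _, _, .inr (.inl k), by unfold vl; ring⟩

theorem dm_add_y {n m : ℤ} (hn : 2 ≤ n) (hm : Dm n m) : Dm n (m + (n + 1) ^ 2) := by
  obtain ⟨h, x, y, z, hd | hd | hd, rfl⟩ := hm
  · have : Wy n x (y + 1) z ∨ Wx n x (y + 1) z ∨ Wx n x (y - n) (z - n) ∨
        Wz n (x - n - 1) (y - n) z := by
      unfold Wx Wy Wz at *
      omega
    rcases this with k | k | k | k
    · exact ⟨h, _, _, _, .inr (.inl k), by unfold vl; ring⟩
    · exact ⟨h, _, _, _, .inl k, by unfold vl; ring⟩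
    · exact ⟨h + 1, _, _, _, .inl k, by unfold vl; ring⟩
    · exact ⟨h + 1, _, _, _, .inr (.inr k), by unfold vl; ring⟩
  · have : Wy n x (y + 1) z ∨ Wz n x (y + 1 - n) (z + n + 1) ∨
        Wx n (x + n + 1) (y + 1 - n) (z + 1) ∨ Wz n x (y - 2 * n) (z + 1) := by
      unfold Wx Wy Wz at *
      omega
    rcases this with k | k | k | k
    · exact ⟨h, _, _, _, .inr (.inl k), by unfold vl; ring⟩
    · exact ⟨h, _, _, _, .inr (.inr k), by unfold vl; ring⟩
    · exact ⟨h, _, _, _, .inl k, by unfold vl; ring⟩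
    · exact ⟨h + 1, _, _, _, .inr (.inr k), by unfold vl; ring⟩
  · have : Wy n x (y + 1) z ∨ Wz n x (y + 1) z ∨ Wx n x (y - n) (z - n) ∨
        Wz n x (y - n) (z - n) := by
      unfold Wx Wy Wz at *
      omega
    rcases this with k | k | k | k
    · exact ⟨h, _, _, _, .inr (.inl k), by unfold vl; ring⟩
    · exact ⟨h, _, _, _, .inr (.inr k), by unfold vl; ring⟩
    · exact ⟨h + 1, _, _, _, .inl k, by unfold vl; ring⟩
    · exact ⟨h + 1, _, _, _, .inr (.inr k), by unfold vl; ring⟩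

theorem dm_nat {n : ℤ} (hn : 2 ≤ n) (h : ℤ) (a b : ℕ) : Dm n (vl n h a b 0) := by
  induction b with
  | zero =>
    induction a with
    | zero => exact ⟨h, 0, 0, 0, .inl (by unfold Wx; omega), rfl⟩
    | succ a ih =>
      have e : vl n h (a + 1 : ℕ) (0 : ℕ) 0 = vl n h a (0 : ℕ) 0 + n ^ 2 := by
        unfold vl
        push_cast
        ring
      exact e ▸ dm_add_x hn ih
  | succ b ih =>
    have e : vl n h a (b + 1 : ℕ) 0 = vl n h a b 0 + (n + 1) ^ 2 := by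
      unfold vl
      push_cast
      ring
    exact e ▸ dm_add_y hn ih

theorem dm_all {n : ℤ} (hn : 2 ≤ n) (m : ℤ) : Dm n m := by
  obtain ⟨t, h1, h2⟩ : ∃ t : ℤ, 0 ≤ m * (3 + 2 * n) + t * (n + 1) ∧
      0 ≤ m * (1 - 2 * n) + t * (n + 1) := by
    have a1 := neg_abs_le (m * (3 + 2 * n))
    have a2 := neg_abs_le (m * (1 - 2 * n))
    have a3 := abs_nonneg (m * (3 + 2 * n))
    have a4 := abs_nonneg (m * (1 - 2 * n))
    have a5 : |m * (3 + 2 * n)| + |m * (1 - 2 * n)| ≤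
        (|m * (3 + 2 * n)| + |m * (1 - 2 * n)|) * (n + 1) :=
      le_mul_of_one_le_right (by omega) (by omega)
    exact ⟨|m * (3 + 2 * n)| + |m * (1 - 2 * n)|, by omega, by omega⟩
  obtain ⟨a, ha⟩ := Int.eq_ofNat_of_zero_le h1
  obtain ⟨b, hb⟩ := Int.eq_ofNat_of_zero_le h2
  have e : vl n (-t) a b 0 = m := by
    rw [← ha, ← hb]
    unfold vl
    ring
  exact e ▸ dm_nat hn (-t) a b

theorem cover {n : ℤ} (hn : 2 ≤ n) (m : ℤ) :
    Rp n m ∨ Rp n (pf n - m) ∨ Rp n (pf n + n ^ 2 - m) := by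
  obtain ⟨h, x, y, z, hd | hd | hd, rfl⟩ := dm_all hn m
  · by_cases hh : x ≤ h
    · exact .inl ⟨h, x, y, z, by unfold InCone Wx at *; omega, rfl⟩
    · exact .inr (.inl ⟨2 * n - 1 - h, 2 * n - x, n - y, n - z, by unfold InCone Wx at *; omega,
        by unfold pf vl; ring⟩)
  · by_cases hh : y ≤ h
    · exact .inl ⟨h, x, y, z, by unfold InCone Wy at *; omega, rfl⟩
    by_cases hx : x = n
    · exact .inr (.inr ⟨2 * n - 1 - h, n - x, 2 * n - y, n - 1 - z,
        by unfold InCone Wy at *; omega, by unfold pf vl; ring⟩)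
    · exact .inr (.inl ⟨2 * n - 1 - h, n - 1 - x, 2 * n - y, n - 1 - z,
        by unfold InCone Wy at *; omega, by unfold pf vl; ring⟩)
  · by_cases hh : z ≤ h
    · exact .inl ⟨h, x, y, z, by unfold InCone Wz at *; omega, rfl⟩
    by_cases hx : x = n
    · exact .inr (.inr ⟨2 * n - 1 - h, n - x, n - y, 2 * n - z,
        by unfold InCone Wz at *; omega, by unfold pf vl; ring⟩)
    · exact .inr (.inl ⟨2 * n - 1 - h, n - 1 - x, n - y, 2 * n - z,
        by unfold InCone Wz at *; omega, by unfold pf vl; ring⟩)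

theorem vl_lower {n h x y z : ℤ} (hn : 2 ≤ n) (hc : InCone h x y z) :
    h * ((n + 1) * n ^ 2 + (n + 1) ^ 3) ≤ vl n h x y z := by
  obtain ⟨h1, -, h3, -, h5, -⟩ := hc
  have hn0 : 0 ≤ n := by omega
  have : 0 ≤ x * n ^ 2 + y * (n + 1) ^ 2 + z * (n * (n + 1)) := by positivity
  unfold vl
  linarith

theorem vl_upper {n h x y z : ℤ} (hn : 2 ≤ n) (hc : InCone h x y z) :
    vl n h x y z ≤ h * (2 * (n + 1) ^ 3 + n ^ 2) := by
  obtain ⟨-, h2, -, h4, -, h6⟩ := hc
  have hn0 : 0 ≤ n := by omega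
  have a1 : x * n ^ 2 ≤ h * n ^ 2 := mul_le_mul_of_nonneg_right h2 (by positivity)
  have a2 : y * (n + 1) ^ 2 ≤ h * (n + 1) ^ 2 := mul_le_mul_of_nonneg_right h4 (by positivity)
  have a3 : z * (n * (n + 1)) ≤ h * (n * (n + 1)) := mul_le_mul_of_nonneg_right h6 (by positivity)
  unfold vl
  nlinarith

theorem rp_nonneg {n m : ℤ} (hn : 2 ≤ n) (hm : Rp n m) : 0 ≤ m := by
  obtain ⟨h, x, y, z, hc, rfl⟩ := hm
  have h0 : 0 ≤ h := hc.1.trans hc.2.1
  have hn0 : 0 ≤ n := by omega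
  exact le_trans (by positivity) (vl_lower hn hc)

theorem not_rp {n e : ℤ} (hn : 2 ≤ n) (h0 : 0 ≤ e) (h0' : e ≤ 1) : ¬ Rp n (pf n + e * n ^ 2) := by
  rintro ⟨h, x, y, z, hc, hv⟩
  have hlo := vl_lower hn hc
  have hup := vl_upper hn hc
  rw [hv] at hlo hup
  have hn0 : 0 < n := by omega
  have p2 : 0 < n ^ 2 := by positivity
  have p3 : 0 < n ^ 3 := by positivity
  have q1 : 0 ≤ e * n ^ 2 := by positivity
  have q2 : e * n ^ 2 ≤ 1 * n ^ 2 := mul_le_mul_of_nonneg_right h0' p2.le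
  have hF : pf n = 4 * n ^ 4 + 10 * n ^ 3 + 5 * n ^ 2 - 1 := by
    unfold pf vl
    ring
  have hh1 : h < 2 * n + 1 := by
    have hg : 0 ≤ (n + 1) * n ^ 2 + (n + 1) ^ 3 := by positivity
    apply lt_of_mul_lt_mul_right _ hg
    have : pf n + 1 * n ^ 2 < (2 * n + 1) * ((n + 1) * n ^ 2 + (n + 1) ^ 3) := by
      rw [hF]
      nlinarith
    linarith
  have hh2 : 2 * n - 2 < h := by
    have hg : 0 ≤ 2 * (n + 1) ^ 3 + n ^ 2 := by positivity
    apply lt_of_mul_lt_mul_right _ hg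
    have : (2 * n - 2) * (2 * (n + 1) ^ 3 + n ^ 2) < pf n := by
      rw [hF]
      nlinarith
    linarith
  obtain ⟨h1, h2, h3, h4, h5, h6⟩ := hc
  have hcase : h = 2 * n - 1 ∨ h = 2 * n := by omega
  rcases hcase with rfl | rfl
  · obtain ⟨j, k, hx, hy, hz⟩ := lattice0 (x := x - 2 * n - e) (y := y - n) (z := z - n) hn
      (by unfold pf vl at hv; linear_combination hv)
    have hk : -2 ≤ k ∧ k ≤ -1 := mul_bound (c := n + 1) (by omega) (by linarith) (by linarith)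
    have hj : -1 ≤ j ∧ j ≤ 0 := mul_bound (c := n) (by omega) (by linarith) (by linarith)
    obtain ⟨k1, k2⟩ := hk
    obtain ⟨j1, j2⟩ := hj
    interval_cases k <;> interval_cases j <;> omega
  · obtain ⟨j, k, hx, hy, hz⟩ := lattice0 (x := x - n + 1 - e) (y := y + 1) (z := z - n) hn
      (by unfold pf vl at hv; linear_combination hv)
    have hk : 0 ≤ k ∧ k ≤ 1 := mul_bound (c := n + 1) (by omega) (by linarith) (by linarith)
    have hj : 1 ≤ j ∧ j ≤ 2 := mul_bound (c := n) (by omega) (by linarith) (by linarith)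
    obtain ⟨k1, k2⟩ := hk
    obtain ⟨j1, j2⟩ := hj
    interval_cases k <;> interval_cases j <;> omega

theorem fibre {n r h x y z : ℤ} (hn : 2 ≤ n) (hr1 : 1 ≤ r) (hr2 : r ≤ n)
    (hc : InCone h x y z) (hv : vl n h x y z = vl n (n + 1) r n 0) : z = 0 ∨ z = h := by
  have hlo := vl_lower hn hc
  have hup := vl_upper hn hc
  rw [hv] at hlo hup
  have hn0 : 0 < n := by omega
  have p2 : 0 < n ^ 2 := by positivity
  have p3 : 0 < n ^ 3 := by positivity
  have hr3 : r * n ^ 2 ≤ n * n ^ 2 := mul_le_mul_of_nonneg_right hr2 p2.le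
  have hr4 : 0 ≤ r * n ^ 2 := by positivity
  have hh1 : h < n + 2 := by
    have hg : 0 ≤ (n + 1) * n ^ 2 + (n + 1) ^ 3 := by positivity
    apply lt_of_mul_lt_mul_right _ hg
    have : vl n (n + 1) r n 0 < (n + 2) * ((n + 1) * n ^ 2 + (n + 1) ^ 3) := by
      unfold vl
      nlinarith
    linarith
  have hh2 : n < h := by
    have hg : 0 ≤ 2 * (n + 1) ^ 3 + n ^ 2 := by positivity
    apply lt_of_mul_lt_mul_right _ hg
    have : n * (2 * (n + 1) ^ 3 + n ^ 2) < vl n (n + 1) r n 0 := by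
      unfold vl
      nlinarith
    linarith
  obtain rfl : h = n + 1 := by omega
  obtain ⟨h1, h2, h3, h4, h5, h6⟩ := hc
  obtain ⟨j, k, hx, hy, hz⟩ := lattice0 (x := x - r) (y := y - n) (z := z) hn
      (by unfold vl at hv; linear_combination hv)
  have hk : 0 ≤ k ∧ k ≤ 0 := mul_bound (c := n + 1) (by omega) (by linarith) (by linarith)
  obtain rfl : k = 0 := by omega
  have hj : -1 ≤ j ∧ j ≤ 0 := mul_bound (c := n + 1) (by omega) (by linarith) (by linarith)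
  have : j = -1 ∨ j = 0 := by omega
  rcases this with rfl | rfl
  · right
    linarith
  · left
    linarith

end Pool.Agent.Lib.MP_36a309_al.FamB
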