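import Mathlib

/-!
`Tor_1^S(S/I, S/m) = I / m I` for ideals `I ≤ m`, in the form needed for the lower bound on the
first Betti number.
-/

namespace Pool.Agent.Lib.MP_36a309_al

open CategoryTheory Limits TensorProduct MonoidalCategory

universe u

section Res

variable {C : Type*} [Category C] [Abelian C] [EnoughProjectives C] {P Z : C} (π : P ⟶ Z)

set_option backward.isDefEq.respectTransparency.types false in
/-- A projective resolution starting with a prescribed epimorphism. -/
noncomputable def resComplex : ChainComplex C ℕ :=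
  ChainComplex.mk' P (Projective.syzygies π) (Projective.d π)
    (fun f => ⟨_, Projective.d f, by simp⟩)

lemma resComplex_d_1_0 : (resComplex π).d 1 0 = Projective.d π := by
  simp [resComplex]

set_option backward.isDefEq.respectTransparency.types false in
lemma resComplex_exactAt_succ (n : ℕ) : (resComplex π).ExactAt (n + 1) := by
  rw [HomologicalComplex.exactAt_iff' _ (n + 1 + 1) (n + 1) n (by simp) (by simp)]
  simp only [HomologicalComplex.sc', HomologicalComplex.shortComplexFunctor', resComplex,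
    ChainComplex.mk', ChainComplex.mk, ChainComplex.of_d]
  match n with
  | 0 => apply exact_d_f
  | n + 1 => apply exact_d_f

set_option backward.isDefEq.respectTransparency.types false in
lemma resComplex_projective [hP : Projective P] (n : ℕ) : Projective ((resComplex π).X n) := by
  obtain (_ | _ | _ | n) := n
  · exact hP
  all_goals apply Projective.projective_over

set_option backward.defeqAttrib.useBackward true in
set_option backward.isDefEq.respectTransparency false in
/-- The projective resolution. -/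
noncomputable def res [Projective P] [Epi π] : ProjectiveResolution Z where
  complex := resComplex π
  projective := resComplex_projective π
  π := (ChainComplex.toSingle₀Equiv _ _).symm ⟨π, by
          rw [resComplex_d_1_0, Category.assoc, kernel.condition, comp_zero]⟩
  quasiIso := ⟨fun n => by
    cases n
    · rw [ChainComplex.quasiIsoAt₀_iff, ShortComplex.quasiIso_iff_of_zeros']
      · dsimp
        refine (ShortComplex.exact_and_epi_g_iff_of_iso ?_).2
          ⟨exact_d_f π, by dsimp; infer_instance⟩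
        exact ShortComplex.isoMk (Iso.refl _) (Iso.refl _) (Iso.refl _)
          (by simp [resComplex]) (by simp)
      all_goals rfl
    · rw [quasiIsoAt_iff_exactAt']
      · apply resComplex_exactAt_succ
      · apply ChainComplex.exactAt_succ_single_obj⟩

end Res

section Lin

variable {S : Type u} [CommRing S] (I m : Ideal S)

lemma exists_one_tmul {P : Type u} [AddCommGroup P] [Module S P] (y : (S ⧸ I) ⊗[S] P) :
    ∃ p : P, y = (1 : S ⧸ I) ⊗ₜ[S] p := by
  induction y using TensorProduct.induction_on with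
  | zero => exact ⟨0, by simp⟩
  | tmul r p =>
    obtain ⟨s, rfl⟩ := Ideal.Quotient.mk_surjective r
    refine ⟨s • p, ?_⟩
    rw [TensorProduct.tmul_smul, TensorProduct.smul_tmul', ← Algebra.algebraMap_eq_smul_one]
    rfl
  | add y z hy hz =>
    obtain ⟨p, rfl⟩ := hy
    obtain ⟨q, rfl⟩ := hz
    exact ⟨p + q, by rw [TensorProduct.tmul_add]⟩

lemma one_tmul_smul_eq_zero {P : Type u} [AddCommGroup P] [Module S P] {x : S} (hx : x ∈ I)
    (p : P) : (1 : S ⧸ I) ⊗ₜ[S] (x • p) = 0 := by
  rw [TensorProduct.tmul_smul, TensorProduct.smul_tmul', ← Algebra.algebraMap_eq_smul_one]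
  have : algebraMap S (S ⧸ I) x = 0 := Ideal.Quotient.eq_zero_iff_mem.2 hx
  rw [this, TensorProduct.zero_tmul]

lemma one_tmul_eq_zero_iff (x : S) : (1 : S ⧸ I) ⊗ₜ[S] x = 0 ↔ x ∈ I := by
  constructor
  · intro h
    have h2 := congrArg (TensorProduct.rid S (S ⧸ I)) h
    rw [TensorProduct.rid_tmul, map_zero, ← Algebra.algebraMap_eq_smul_one] at h2
    exact Ideal.Quotient.eq_zero_iff_mem.1 h2
  · intro h
    have := one_tmul_smul_eq_zero I h (1 : S)
    simpa using this

lemma key_lin (hIm : I ≤ m) {P1 P2 H : Type u} [AddCommGroup P1] [Module S P1]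
    [AddCommGroup P2] [Module S P2] [AddCommGroup H] [Module S H]
    (d1 : P1 →ₗ[S] S) (d2 : P2 →ₗ[S] P1) (h1 : LinearMap.range d1 = m)
    (h2 : LinearMap.range d2 = LinearMap.ker d1)
    (π : LinearMap.ker (d1.lTensor (S ⧸ I)) →ₗ[S] H) (hπ : Function.Surjective π)
    (hker : ∀ z, π z = 0 ↔ z.1 ∈ LinearMap.range (d2.lTensor (S ⧸ I))) :
    ∃ θ : I →ₗ[S] H, Function.Surjective θ ∧ ∀ x : I, θ x = 0 ↔ (x : S) ∈ I * m := by
  -- the submodule of elements mapped into `I`
  let P' : Submodule S P1 := Submodule.comap d1 I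
  let φ : P' →ₗ[S] I := (d1.domRestrict P').codRestrict I (fun p => p.2)
  have hφ : Function.Surjective φ := by
    intro x
    have : (x : S) ∈ LinearMap.range d1 := h1 ▸ hIm x.2
    obtain ⟨p, hp⟩ := this
    refine ⟨⟨p, ?_⟩, Subtype.ext hp⟩
    change d1 p ∈ I
    rw [hp]; exact x.2
  let τ : P' →ₗ[S] LinearMap.ker (d1.lTensor (S ⧸ I)) :=
    ((TensorProduct.mk S (S ⧸ I) P1 1).domRestrict P').codRestrict _ (fun p => by
      rw [LinearMap.mem_ker]
      change d1.lTensor (S ⧸ I) ((1 : S ⧸ I) ⊗ₜ[S] (p : P1)) = 0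
      rw [LinearMap.lTensor_tmul, one_tmul_eq_zero_iff]
      exact p.2)
  have hτ : Function.Surjective τ := by
    rintro ⟨y, hy⟩
    obtain ⟨p, rfl⟩ := exists_one_tmul I y
    rw [LinearMap.mem_ker, LinearMap.lTensor_tmul, one_tmul_eq_zero_iff] at hy
    exact ⟨⟨p, hy⟩, rfl⟩
  -- the functional detecting `I * m`
  let Λ0 : S →ₗ[S] P1 →ₗ[S] S ⧸ (I * m) :=
    (LinearMap.lsmul S (S ⧸ (I * m))).compl₂ ((I * m).mkQ ∘ₗ d1)
  let Λ1 : (S ⧸ I) →ₗ[S] P1 →ₗ[S] S ⧸ (I * m) := Submodule.liftQ I Λ0 (by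
    intro x hx
    rw [LinearMap.mem_ker]
    ext p
    change x • (I * m).mkQ (d1 p) = 0
    rw [← map_smul, Submodule.mkQ_apply, Submodule.Quotient.mk_eq_zero]
    exact Ideal.mul_mem_mul hx (h1 ▸ LinearMap.mem_range_self d1 p))
  let Λ : (S ⧸ I) ⊗[S] P1 →ₗ[S] S ⧸ (I * m) := TensorProduct.lift Λ1
  have hΛ : ∀ p : P1, Λ ((1 : S ⧸ I) ⊗ₜ[S] p) = (I * m).mkQ (d1 p) := by
    intro p
    change (1 : S) • (I * m).mkQ (d1 p) = _
    rw [one_smul]
  have hmain : ∀ p : P', π (τ p) = 0 ↔ d1 p ∈ I * m := by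
    intro p
    rw [hker]
    change (1 : S ⧸ I) ⊗ₜ[S] (p : P1) ∈ _ ↔ _
    constructor
    · rintro ⟨y, hy⟩
      obtain ⟨q, rfl⟩ := exists_one_tmul I y
      rw [LinearMap.lTensor_tmul] at hy
      have h3 := congrArg Λ hy
      rw [hΛ, hΛ] at h3
      have h4 : d1 (d2 q) = 0 := by
        rw [← LinearMap.mem_ker, ← h2]; exact LinearMap.mem_range_self _ _
      rw [h4, map_zero] at h3
      exact (Submodule.Quotient.mk_eq_zero _).1 h3.symm
    · intro hp
      have h3 : ∀ x ∈ I * m, ∃ q : P1, d1 q = x ∧ (1 : S ⧸ I) ⊗ₜ[S] q = 0 := by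
        intro x hx
        refine Submodule.mul_induction_on hx ?_ ?_
        · intro a ha b hb
          have : b ∈ LinearMap.range d1 := h1 ▸ hb
          obtain ⟨q, rfl⟩ := this
          exact ⟨a • q, by simp, one_tmul_smul_eq_zero I ha q⟩
        · rintro a b ⟨q, rfl, hq⟩ ⟨q', rfl, hq'⟩
          exact ⟨q + q', by simp, by rw [TensorProduct.tmul_add, hq, hq', add_zero]⟩
      obtain ⟨q, hq, hq0⟩ := h3 _ hp
      have h4 : (p : P1) - q ∈ LinearMap.range d2 := by
        rw [h2, LinearMap.mem_ker, map_sub, hq, sub_self]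
      obtain ⟨r, hr⟩ := h4
      refine ⟨(1 : S ⧸ I) ⊗ₜ[S] r, ?_⟩
      rw [LinearMap.lTensor_tmul, hr, TensorProduct.tmul_sub, hq0, sub_zero]
  have hle : LinearMap.ker φ ≤ LinearMap.ker (π ∘ₗ τ) := by
    intro p hp
    rw [LinearMap.mem_ker] at hp ⊢
    have : d1 p = 0 := congrArg Subtype.val hp
    exact (hmain p).2 (by rw [this]; exact Submodule.zero_mem _)
  let θ : I →ₗ[S] H :=
    ((LinearMap.ker φ).liftQ (π ∘ₗ τ) hle) ∘ₗ (φ.quotKerEquivOfSurjective hφ).symm.toLinearMap
  have hθ : ∀ p : P', θ (φ p) = π (τ p) := by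
    intro p
    have : (φ.quotKerEquivOfSurjective hφ).symm (φ p) = Submodule.Quotient.mk p := by
      rw [LinearEquiv.symm_apply_eq]; rfl
    change ((LinearMap.ker φ).liftQ (π ∘ₗ τ) hle) ((φ.quotKerEquivOfSurjective hφ).symm (φ p)) = _
    rw [this]; rfl
  refine ⟨θ, ?_, ?_⟩
  · intro y
    obtain ⟨z, rfl⟩ := hπ y
    obtain ⟨p, rfl⟩ := hτ z
    exact ⟨φ p, hθ p⟩
  · intro x
    obtain ⟨p, rfl⟩ := hφ x
    rw [hθ, hmain]
    rfl

end Lin

section TorSec

variable {S : Type u} [CommRing S] (I m : Ideal S)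

lemma exists_proj (T : ShortComplex (ModuleCat.{u} S)) :
    ∃ p : LinearMap.ker T.g.hom →ₗ[S] T.moduleCatLeftHomologyData.H, Function.Surjective p ∧
      ∀ z, p z = 0 ↔ z.1 ∈ LinearMap.range T.f.hom := by
  refine ⟨(LinearMap.range T.moduleCatToCycles).mkQ, Submodule.mkQ_surjective _, fun z => ?_⟩
  refine (Submodule.Quotient.mk_eq_zero (LinearMap.range T.moduleCatToCycles) (x := z)).trans ?_
  constructor
  · rintro ⟨y, rfl⟩
    exact ⟨y, rfl⟩
  · rintro ⟨y, hy⟩
    exact ⟨y, Subtype.ext hy⟩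

set_option backward.isDefEq.respectTransparency false in
lemma exists_theta (hIm : I ≤ m) :
    ∃ θ : I →ₗ[S] (((Tor (ModuleCat.{u} S) 1).obj (ModuleCat.of S (S ⧸ I))).obj
        (ModuleCat.of S (S ⧸ m))),
      Function.Surjective θ ∧ ∀ x : I, θ x = 0 ↔ (x : S) ∈ I * m := by
  let π0 : ModuleCat.of S S ⟶ ModuleCat.of S (S ⧸ m) := ModuleCat.ofHom m.mkQ
  have : Epi π0 := (ModuleCat.epi_iff_surjective π0).2 (Submodule.mkQ_surjective m)
  let F := (tensoringLeft (ModuleCat.{u} S)).obj (ModuleCat.of S (S ⧸ I))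
  let Q := res π0
  let K := (F.mapHomologicalComplex (ComplexShape.down ℕ)).obj Q.complex
  let e1 : ((Tor (ModuleCat.{u} S) 1).obj (ModuleCat.of S (S ⧸ I))).obj
        (ModuleCat.of S (S ⧸ m)) ≅ K.homology 1 := Q.isoLeftDerivedObj F 1
  let e2 : K.homology 1 ≅ (K.sc' 2 1 0).homology := K.homologyIsoSc' 2 1 0 (by simp) (by simp)
  let e3 := (K.sc' 2 1 0).moduleCatHomologyIso
  let e := (e1 ≪≫ e2 ≪≫ e3).toLinearEquiv
  let d1 : Q.complex.X 1 →ₗ[S] S := (Q.complex.d 1 0).hom
  let d2 : Q.complex.X 2 →ₗ[S] Q.complex.X 1 := (Q.complex.d 2 1).hom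
  have h2 : LinearMap.range d2 = LinearMap.ker d1 := (Q.exact_succ 0).moduleCat_range_eq_ker
  have h1 : LinearMap.range d1 = m := by
    have h := (exact_d_f π0).moduleCat_range_eq_ker
    have h' : Q.complex.d 1 0 = Projective.d π0 := resComplex_d_1_0 π0
    change LinearMap.range (Q.complex.d 1 0).hom = m
    rw [h']
    refine h.trans ?_
    exact Submodule.ker_mkQ m
  obtain ⟨p, hp, hp'⟩ := exists_proj (K.sc' 2 1 0)
  obtain ⟨θ, hθ, hθ'⟩ := key_lin I m hIm d1 d2 h1 h2
    (H := (K.sc' 2 1 0).moduleCatLeftHomologyData.H) p hp hp'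
  refine ⟨e.symm.toLinearMap ∘ₗ θ, e.symm.surjective.comp hθ, fun x => ?_⟩
  rw [← hθ' x]
  simp

/-- Lower bound for the dimension of `Tor_1`. -/
lemma card_le_finrank_tor (k : Type u) [Field k] [Algebra k S] [IsNoetherianRing S] (hIm : I ≤ m)
    (hres : ∀ s : S, ∃ c : k, s - algebraMap k S c ∈ m) {J : Type} [Fintype J]
    (f : J → S) (hf : ∀ j, f j ∈ I)
    (hind : ∀ c : J → k, ∑ j, algebraMap k S (c j) * f j ∈ I * m → ∀ j, c j = 0) :
    Fintype.card J ≤ Module.finrank k ((ModuleCat.restrictScalars (algebraMap k S)).obj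
      (((Tor (ModuleCat.{u} S) 1).obj (ModuleCat.of S (S ⧸ I))).obj
        (ModuleCat.of S (S ⧸ m)))) := by
  obtain ⟨θ, hθ, hθ'⟩ := exists_theta I m hIm
  generalize (((Tor (ModuleCat.{u} S) 1).obj (ModuleCat.of S (S ⧸ I))).obj
        (ModuleCat.of S (S ⧸ m))) = T at θ hθ hθ' ⊢
  let T' := (ModuleCat.restrictScalars (algebraMap k S)).obj T
  have hsmul : ∀ (c : k) (v : T'), c • v = ((algebraMap k S c • (show T from v) : T)) :=
    fun c v => rfl
  have hkill : ∀ x ∈ m, ∀ v : T, x • v = 0 := by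
    intro x hx v
    obtain ⟨y, rfl⟩ := hθ v
    rw [← map_smul, hθ']
    change x * (y : S) ∈ I * m
    rw [mul_comm x]
    exact Ideal.mul_mem_mul y.2 hx
  have hfinS : Module.Finite S T := Module.Finite.of_surjective θ hθ
  have hfin : Module.Finite k T' := by
    obtain ⟨s, hs⟩ := hfinS.fg_top
    refine ⟨⟨(show Finset T' from s), ?_⟩⟩
    rw [eq_top_iff]
    rintro v -
    have hv : (show T from v) ∈ Submodule.span S (s : Set T) := by rw [hs]; trivial
    have key : ∀ w : T, w ∈ Submodule.span S (s : Set T) →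
        (show T' from w) ∈ Submodule.span k ((show Finset T' from s) : Set T') := by
      intro w hw
      induction hw using Submodule.span_induction with
      | mem x hx => exact Submodule.subset_span hx
      | zero => exact Submodule.zero_mem _
      | add x y _ _ hx hy => exact Submodule.add_mem _ hx hy
      | smul r x _ hx =>
        obtain ⟨c, hc⟩ := hres r
        have h1 : r • x = algebraMap k S c • x := by
          have := hkill _ hc x
          rw [sub_smul, sub_eq_zero] at this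
          exact this
        have h2 := Submodule.smul_mem _ c hx
        rw [hsmul] at h2
        rw [h1]
        exact h2
    exact key _ hv
  have hli : LinearIndependent k (fun j : J => (show T' from θ ⟨f j, hf j⟩)) := by
    rw [Fintype.linearIndependent_iff]
    intro c hc
    apply hind c
    have h1 : θ (∑ j, algebraMap k S (c j) • (⟨f j, hf j⟩ : I)) = 0 := by
      rw [map_sum]
      simp only [map_smul]
      exact hc
    rw [hθ'] at h1
    simpa [Algebra.smul_def] using h1
  exact hli.fintype_card_le_finrank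

end TorSec

end Pool.Agent.Lib.MP_36a309_al
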