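import Pool.Agent.Lib.MP_36a309_al.Defs
import Pool.Agent.Lib.MP_36a309_al.TorOne

/-!
Elements with a disconnected factorization graph give a lower bound for the first Betti number.
-/

namespace Pool.Agent.Lib.MP_36a309_al

open MvPowerSeries

universe u

namespace NumSgp

variable {e : ℕ} (Γ : NumSgp e) (k : Type u) [Field k] (T : Finset (Fin e))

/-- substitution killing the variables outside `T` -/
noncomputable def aT (i : Fin e) : PowerSeries k :=
  if i ∈ T then (PowerSeries.X : PowerSeries k) ^ Γ.gen i else 0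

theorem hasSubstT : MvPowerSeries.HasSubst (Γ.aT k T) := by
  apply MvPowerSeries.hasSubst_of_constantCoeff_zero
  intro i
  change PowerSeries.constantCoeff (Γ.aT k T i) = 0
  unfold aT
  split_ifs
  · simp [Γ.gen_ne_zero i]
  · simp

/-- the degree of a monomial -/
def wt (d : Fin e →₀ ℕ) : ℕ := ∑ i, d i * Γ.gen i

lemma wt_add (d d' : Fin e →₀ ℕ) : Γ.wt (d + d') = Γ.wt d + Γ.wt d' := by
  simp [wt, add_mul, Finset.sum_add_distrib]

lemma prod_full (d : Fin e →₀ ℕ) :
    (d.prod fun s n => ((PowerSeries.X : PowerSeries k) ^ Γ.gen s) ^ n) =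
      (PowerSeries.X : PowerSeries k) ^ Γ.wt d := by
  rw [Finsupp.prod_fintype _ _ (by simp), wt, ← Finset.prod_pow_eq_pow_sum]
  refine Finset.prod_congr rfl fun i _ => ?_
  rw [← pow_mul, mul_comm]

lemma prod_T_of_supp (d : Fin e →₀ ℕ) (hd : ∀ i, i ∉ T → d i = 0) :
    (d.prod fun s n => (Γ.aT k T s) ^ n) = (PowerSeries.X : PowerSeries k) ^ Γ.wt d := by
  rw [← Γ.prod_full k d, Finsupp.prod_fintype _ _ (by simp), Finsupp.prod_fintype _ _ (by simp)]
  refine Finset.prod_congr rfl fun i _ => ?_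
  by_cases hi : i ∈ T
  · simp [aT, hi]
  · simp [hd i hi]

lemma prod_T_of_not_supp (d : Fin e →₀ ℕ) (i : Fin e) (hi : i ∉ T) (hd : d i ≠ 0) :
    (d.prod fun s n => (Γ.aT k T s) ^ n) = 0 := by
  rw [Finsupp.prod_fintype _ _ (by simp)]
  apply Finset.prod_eq_zero (Finset.mem_univ i)
  simp [aT, hi, hd]

/-- the algebra map killing the variables outside `T` -/
noncomputable def paramT : MvPowerSeries (Fin e) k →ₐ[k] PowerSeries k :=
  MvPowerSeries.substAlgHom (Γ.hasSubstT k T)

lemma coeff_param (f : MvPowerSeries (Fin e) k) (n : ℕ) :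
    PowerSeries.coeff n (Γ.param k f) =
      ∑ᶠ d : Fin e →₀ ℕ, coeff d f •
        PowerSeries.coeff n ((PowerSeries.X : PowerSeries k) ^ Γ.wt d) := by
  have h := MvPowerSeries.coeff_subst (Γ.hasSubst k) f (Finsupp.single () n)
  simp only [Γ.prod_full k] at h
  rw [param, MvPowerSeries.substAlgHom_apply]
  exact h

lemma coeff_paramT (f : MvPowerSeries (Fin e) k) (n : ℕ) :
    PowerSeries.coeff n (Γ.paramT k T f) =
      ∑ᶠ d : Fin e →₀ ℕ, coeff d f •
        PowerSeries.coeff n (d.prod fun s n => (Γ.aT k T s) ^ n) := by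
  have h := MvPowerSeries.coeff_subst (Γ.hasSubstT k T) f (Finsupp.single () n)
  rw [paramT, MvPowerSeries.substAlgHom_apply]
  exact h

lemma coeff_paramT_eq (f : MvPowerSeries (Fin e) k) (n : ℕ)
    (h : ∀ d, Γ.wt d = n → ∀ i, i ∉ T → d i = 0) :
    PowerSeries.coeff n (Γ.paramT k T f) = PowerSeries.coeff n (Γ.param k f) := by
  rw [coeff_param, coeff_paramT]
  congr 1
  funext d
  by_cases hd : ∀ i, i ∉ T → d i = 0
  · rw [Γ.prod_T_of_supp k T d hd]
  · have hne : Γ.wt d ≠ n := fun h' => hd (h d h')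
    push Not at hd
    obtain ⟨i, hi, hdi⟩ := hd
    rw [Γ.prod_T_of_not_supp k T d i hi hdi, PowerSeries.coeff_X_pow, if_neg (Ne.symm hne)]
    simp

lemma exists_of_coeff_paramT_ne (f : MvPowerSeries (Fin e) k) (hf : constantCoeff f = 0) (n : ℕ)
    (h : PowerSeries.coeff n (Γ.paramT k T f) ≠ 0) :
    ∃ d, Γ.wt d = n ∧ ∃ i ∈ T, d i ≠ 0 := by
  by_contra hcon
  apply h
  rw [coeff_paramT]
  apply finsum_eq_zero_of_forall_eq_zero
  intro d
  by_cases hd : ∀ i, i ∉ T → d i = 0
  · rw [Γ.prod_T_of_supp k T d hd, PowerSeries.coeff_X_pow]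
    split_ifs with hn
    · have hd0 : d = 0 := by
        ext i
        by_contra hi
        by_cases hiT : i ∈ T
        · exact hcon ⟨d, hn.symm, i, hiT, hi⟩
        · exact hi (hd i hiT)
      subst hd0
      simp [hf]
    · simp
  · push Not at hd
    obtain ⟨i, hi, hdi⟩ := hd
    rw [Γ.prod_T_of_not_supp k T d i hi hdi]
    simp

lemma mem_max_iff (f : MvPowerSeries (Fin e) k) :
    f ∈ IsLocalRing.maximalIdeal (MvPowerSeries (Fin e) k) ↔ constantCoeff f = 0 := by
  rw [IsLocalRing.mem_maximalIdeal, mem_nonunits_iff, MvPowerSeries.isUnit_iff_constantCoeff]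
  simp

lemma constantCoeff_param (f : MvPowerSeries (Fin e) k) :
    PowerSeries.coeff 0 (Γ.param k f) = constantCoeff f := by
  have h1 : f = (f - C (constantCoeff f)) + C (constantCoeff f) := by ring
  have h2 : PowerSeries.coeff 0 (Γ.param k (f - C (constantCoeff f))) = 0 := by
    have := MvPowerSeries.constantCoeff_subst_eq_zero (Γ.hasSubst k) (by
      intro i
      change PowerSeries.constantCoeff ((PowerSeries.X : PowerSeries k) ^ Γ.gen i) = 0
      simp [Γ.gen_ne_zero i]) (f := f - C (constantCoeff f)) (by simp)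
    rw [param, MvPowerSeries.substAlgHom_apply, PowerSeries.coeff_zero_eq_constantCoeff_apply]
    exact this
  have h3 : Γ.param k (C (constantCoeff f)) = PowerSeries.C (constantCoeff f) :=
    (Γ.param k).commutes (constantCoeff f)
  conv_lhs => rw [h1, map_add, map_add, h2, h3]
  simp

lemma ideal_le_max : Γ.ideal k ≤ IsLocalRing.maximalIdeal (MvPowerSeries (Fin e) k) := by
  intro f hf
  rw [mem_max_iff, ← Γ.constantCoeff_param k f]
  have : Γ.param k f = 0 := hf
  rw [this, map_zero]

lemma coeff_paramT_of_mem_mul (n : ℕ)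
    (hn : ∀ d, Γ.wt d = n → (∀ i, i ∉ T → d i = 0) ∨ (∀ i ∈ T, d i = 0))
    (f : MvPowerSeries (Fin e) k)
    (hf : f ∈ Γ.ideal k * IsLocalRing.maximalIdeal (MvPowerSeries (Fin e) k)) :
    PowerSeries.coeff n (Γ.paramT k T f) = 0 := by
  refine Submodule.mul_induction_on hf ?_ ?_
  · intro a ha b hb
    rw [map_mul, PowerSeries.coeff_mul]
    apply Finset.sum_eq_zero
    rintro ⟨p, q⟩ hpq
    rw [Finset.HasAntidiagonal.mem_antidiagonal] at hpq
    by_cases hq : PowerSeries.coeff q (Γ.paramT k T b) = 0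
    · simp [hq]
    · obtain ⟨d, hd, i, hiT, hi⟩ :=
        Γ.exists_of_coeff_paramT_ne k T b ((mem_max_iff k b).1 hb) q hq
      have h0 : PowerSeries.coeff p (Γ.paramT k T a) = 0 := by
        rw [Γ.coeff_paramT_eq k T a p]
        · have : Γ.param k a = 0 := ha
          rw [this, map_zero]
        · intro d' hd' j hj
          rcases hn (d' + d) (by rw [wt_add, hd, hd']; exact hpq) with h | h
          · have := h j hj
            simp only [Finsupp.coe_add, Pi.add_apply] at this
            omega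
          · have := h i hiT
            simp only [Finsupp.coe_add, Pi.add_apply] at this
            omega
      simp [h0]
  · intro a b ha hb
    rw [map_add, map_add, ha, hb, add_zero]

theorem card_le_betti {J : Type} [Fintype J] (m : J → ℕ) (hm : Function.Injective m)
    (a a' : J → (Fin e →₀ ℕ)) (ha : ∀ j, Γ.wt (a j) = m j) (ha' : ∀ j, Γ.wt (a' j) = m j)
    (haT : ∀ j i, i ∉ T → a j i = 0) (haT' : ∀ j, ∃ i, i ∉ T ∧ a' j i ≠ 0)
    (hdis : ∀ j d, Γ.wt d = m j → (∀ i, i ∉ T → d i = 0) ∨ (∀ i ∈ T, d i = 0)) :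
    Fintype.card J ≤ Γ.betti k 1 := by
  classical
  let f : J → MvPowerSeries (Fin e) k := fun j => monomial (a j) 1 - monomial (a' j) 1
  have hf : ∀ j, f j ∈ Γ.ideal k := by
    intro j
    change Γ.param k (f j) = 0
    simp only [f, map_sub, param, MvPowerSeries.substAlgHom_monomial, map_one, one_mul]
    rw [Γ.prod_full k, Γ.prod_full k, ha, ha', sub_self]
  have hfT : ∀ j, Γ.paramT k T (f j) = (PowerSeries.X : PowerSeries k) ^ m j := by
    intro j
    obtain ⟨i, hi, hi'⟩ := haT' j
    simp only [f, map_sub, paramT, MvPowerSeries.substAlgHom_monomial, map_one, one_mul]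
    rw [Γ.prod_T_of_supp k T _ (haT j), Γ.prod_T_of_not_supp k T _ i hi hi', ha, sub_zero]
  refine card_le_finrank_tor (Γ.ideal k) (IsLocalRing.maximalIdeal (MvPowerSeries (Fin e) k)) k
    (Γ.ideal_le_max k) (fun s => ⟨constantCoeff s, ?_⟩) f hf ?_
  · rw [mem_max_iff]
    change constantCoeff (s - C (constantCoeff s)) = 0
    simp
  · intro c hc j
    have h := Γ.coeff_paramT_of_mem_mul k T (m j) (hdis j) _ hc
    rw [map_sum, map_sum, Finset.sum_eq_single j] at h
    · rw [map_mul, hfT, AlgHom.commutes] at h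
      simpa [PowerSeries.coeff_X_pow, PowerSeries.algebraMap_apply] using h
    · intro j' _ hj'
      rw [map_mul, hfT, AlgHom.commutes]
      have : m j ≠ m j' := fun h => hj' (hm h).symm
      simp [PowerSeries.coeff_X_pow, this]
    · simp

end NumSgp

end Pool.Agent.Lib.MP_36a309_al
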