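import Pool.Agent.Lib.MP_36a309_al.Betti
import Pool.Agent.Lib.MP_36a309_al.Arith

/-!
Numerical semigroups generated by the eight numbers `g + a p + b q + c r`, `a, b, c ∈ {0, 1}`.
-/

set_option autoImplicit false

namespace Pool.Agent.Lib.MP_36a309_al

universe u

/-- An enumeration of the vertices of the cube. -/
structure Bits where
  /-- first coordinate -/
  u : Fin 8 → ℕ
  /-- second coordinate -/
  v : Fin 8 → ℕ
  /-- third coordinate -/
  w : Fin 8 → ℕ
  le : ∀ i, u i ≤ 1 ∧ v i ≤ 1 ∧ w i ≤ 1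
  ex : ∀ a b c : ℕ, a ≤ 1 → b ≤ 1 → c ≤ 1 → ∃ i, u i = a ∧ v i = b ∧ w i = c

/-- Integers represented by points of the cone over the cube. -/
def CRep (g p q r m : ℤ) : Prop :=
  ∃ h x y z, InCone h x y z ∧ h * g + x * p + y * q + z * r = m

namespace Bits

variable (B : Bits) (g p q r : ℕ)

/-- The generators. -/
def gen (i : Fin 8) : ℕ := g + B.u i * p + B.v i * q + B.w i * r

/-- The semigroup. -/
def sg : AddSubmonoid ℕ := AddSubmonoid.closure (Set.range (B.gen g p q r))

theorem exists_fact (h : ℕ) : ∀ x y z : ℕ, x ≤ h → y ≤ h → z ≤ h → ∃ d : Fin 8 →₀ ℕ,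
    ∑ i, d i = h ∧ ∑ i, d i * B.u i = x ∧ ∑ i, d i * B.v i = y ∧ ∑ i, d i * B.w i = z := by
  induction h with
  | zero =>
    intro x y z hx hy hz
    exact ⟨0, by simp, by simp; omega, by simp; omega, by simp; omega⟩
  | succ h ih =>
    intro x y z hx hy hz
    obtain ⟨i, h1, h2, h3⟩ := B.ex (min x 1) (min y 1) (min z 1) (by omega) (by omega) (by omega)
    obtain ⟨d, e0, e1, e2, e3⟩ := ih (x - min x 1) (y - min y 1) (z - min z 1) (by omega)
      (by omega) (by omega)
    have key : ∀ f : Fin 8 → ℕ, ∑ j, (d + Finsupp.single i 1 : Fin 8 →₀ ℕ) j * f j =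
        ∑ j, d j * f j + f i := fun f => by
      simp only [Finsupp.coe_add, Pi.add_apply, add_mul, Finset.sum_add_distrib]
      rw [Finset.sum_eq_single i (f := fun j => (Finsupp.single i 1 : Fin 8 →₀ ℕ) j * f j)
        (fun j _ hj => by rw [Finsupp.single_eq_of_ne hj, zero_mul]) (by simp),
        Finsupp.single_eq_same, one_mul]
    refine ⟨d + Finsupp.single i 1, ?_, ?_, ?_, ?_⟩
    · have := key fun _ => 1
      simp only [mul_one] at this
      omega
    · rw [key]
      omega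
    · rw [key]
      omega
    · rw [key]
      omega

theorem sum_gen (d : Fin 8 → ℕ) : ∑ i, d i * B.gen g p q r i = (∑ i, d i) * g +
    (∑ i, d i * B.u i) * p + (∑ i, d i * B.v i) * q + (∑ i, d i * B.w i) * r := by
  simp only [gen, Finset.sum_mul, ← Finset.sum_add_distrib]
  exact Finset.sum_congr rfl fun i _ => by ring

theorem sum_le (d f : Fin 8 → ℕ) (hf : ∀ i, f i ≤ 1) : ∑ i, d i * f i ≤ ∑ i, d i :=
  Finset.sum_le_sum fun i _ => (Nat.mul_le_mul_left _ (hf i)).trans (mul_one _).le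

theorem mem_sg (m : ℤ) : (∃ m' ∈ B.sg g p q r, (m' : ℤ) = m) ↔ CRep g p q r m := by
  constructor
  · rintro ⟨m, hm, rfl⟩
    induction hm using AddSubmonoid.closure_induction with
    | mem x hx =>
      obtain ⟨i, rfl⟩ := hx
      obtain ⟨h1, h2, h3⟩ := B.le i
      refine ⟨1, B.u i, B.v i, B.w i, by unfold InCone; omega, ?_⟩
      simp [gen]
    | zero => exact ⟨0, 0, 0, 0, by unfold InCone; omega, by simp⟩
    | add a b _ _ ha hb =>
      obtain ⟨h, x, y, z, hc, hv⟩ := ha
      obtain ⟨h', x', y', z', hc', hv'⟩ := hb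
      refine ⟨h + h', x + x', y + y', z + z', by unfold InCone at *; omega, ?_⟩
      push_cast
      linear_combination hv + hv'
  · rintro ⟨h, x, y, z, ⟨h1, h2, h3, h4, h5, h6⟩, rfl⟩
    obtain ⟨h, rfl⟩ := Int.eq_ofNat_of_zero_le (show 0 ≤ h by omega)
    obtain ⟨x, rfl⟩ := Int.eq_ofNat_of_zero_le h1
    obtain ⟨y, rfl⟩ := Int.eq_ofNat_of_zero_le h3
    obtain ⟨z, rfl⟩ := Int.eq_ofNat_of_zero_le h5
    obtain ⟨d, e0, e1, e2, e3⟩ := B.exists_fact h x y z (by omega) (by omega) (by omega)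
    refine ⟨∑ i, d i * B.gen g p q r i, sum_mem fun i _ => ?_, ?_⟩
    · exact nsmul_mem (AddSubmonoid.subset_closure (Set.mem_range_self i)) (d i)
    · rw [sum_gen, e0, e1, e2, e3]
      push_cast
      rfl

theorem gen_bounds (hlt : p + q + r < g) (i : Fin 8) :
    g ≤ B.gen g p q r i ∧ B.gen g p q r i < 2 * g := by
  obtain ⟨h1, h2, h3⟩ := B.le i
  have a1 : B.u i * p ≤ 1 * p := Nat.mul_le_mul_right _ h1
  have a2 : B.v i * q ≤ 1 * q := Nat.mul_le_mul_right _ h2
  have a3 : B.w i * r ≤ 1 * r := Nat.mul_le_mul_right _ h3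
  unfold gen
  omega

theorem ge_of_mem (hlt : p + q + r < g) {m : ℕ} (hm : m ∈ B.sg g p q r) : m = 0 ∨ g ≤ m := by
  induction hm using AddSubmonoid.closure_induction with
  | mem x hx =>
    obtain ⟨i, rfl⟩ := hx
    exact Or.inr (B.gen_bounds g p q r hlt i).1
  | zero => exact Or.inl rfl
  | add a b _ _ ha hb => omega

theorem range_gen (hlt : p + q + r < g) : Set.range (B.gen g p q r) =
    {x | x ∈ B.sg g p q r ∧ x ≠ 0 ∧
      ∀ a ∈ B.sg g p q r, ∀ b ∈ B.sg g p q r, a + b = x → a = 0 ∨ b = 0} := by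
  ext x
  constructor
  · rintro ⟨i, rfl⟩
    obtain ⟨h1, h2⟩ := B.gen_bounds g p q r hlt i
    refine ⟨AddSubmonoid.subset_closure ⟨i, rfl⟩, by omega, fun a ha b hb hab => ?_⟩
    have := B.ge_of_mem g p q r hlt ha
    have := B.ge_of_mem g p q r hlt hb
    omega
  · rintro ⟨hx, hx0, hx1⟩
    induction hx using AddSubmonoid.closure_induction with
    | mem x hx => exact hx
    | zero => exact absurd rfl hx0
    | add a b ha hb iha ihb =>
      rcases hx1 a ha b hb rfl with h | h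
      · subst h
        rw [zero_add] at hx0 hx1 ⊢
        exact ihb hx0 hx1
      · subst h
        rw [add_zero] at hx0 hx1 ⊢
        exact iha hx0 hx1

/-- The hypotheses under which the eight numbers are the minimal generators of a numerical
semigroup with Frobenius number `F`. -/
structure Ok (F : ℤ) : Prop where
  lt : p + q + r < g
  mono : StrictMono (B.gen g p q r)
  gt : ∀ m, F < m → CRep g p q r m
  frob : ¬ CRep g p q r F

variable {B g p q r} {F : ℤ}

/-- The numerical semigroup of embedding dimension 8. -/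
def Ok.sgp (H : B.Ok g p q r F) : NumSgp 8 where
  carrier := B.sg g p q r
  finite_compl := by
    refine (Set.finite_le_nat F.toNat).subset fun m hm => ?_
    by_contra hh
    obtain ⟨m', hm', e⟩ := (B.mem_sg g p q r m).2 (H.gt m (by
      simp only [Set.mem_ofPred_eq] at hh
      omega))
    obtain rfl : m' = m := by exact_mod_cast e
    exact hm hm'
  gen := B.gen g p q r
  gen_strictMono := H.mono
  range_gen := B.range_gen g p q r H.lt

theorem Ok.mem (H : B.Ok g p q r F) (m : ℤ) : m ∈ H.sgp.intSet ↔ CRep g p q r m :=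
  B.mem_sg g p q r m

theorem Ok.frob_eq (H : B.Ok g p q r F) : H.sgp.frob = F := by
  apply IsGreatest.csSup_eq
  constructor
  · rw [Set.mem_compl_iff, H.mem]
    exact H.frob
  · intro x hx
    rw [Set.mem_compl_iff, H.mem] at hx
    by_contra hh
    exact hx (H.gt x (not_le.1 hh))

theorem Ok.ge (H : B.Ok g p q r F) {m : ℤ} (hm : m ∈ H.sgp.intSet) : m = 0 ∨ (g : ℤ) ≤ m := by
  obtain ⟨m, hm, rfl⟩ := hm
  have := B.ge_of_mem g p q r H.lt hm
  simp only
  omega

/-- Elements all of whose representatives lie on the faces `z = 0` or `z = h`, with a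
representative on each face, are degrees of minimal relations. -/
theorem Ok.betti (H : B.Ok g p q r F) (k : Type u) [Field k] {J : Type} [Fintype J] (m : J → ℕ)
    (hm : Function.Injective m)
    (h0 : ∀ j, ∃ h x y : ℕ, x ≤ h ∧ y ≤ h ∧ h * g + x * p + y * q = m j)
    (h1 : ∀ j, ∃ h x y : ℕ, 0 < h ∧ x ≤ h ∧ y ≤ h ∧ h * g + x * p + y * q + h * r = m j)
    (hf : ∀ j (h x y z : ℤ), InCone h x y z → h * g + x * p + y * q + z * r = m j →
      z = 0 ∨ z = h) : Fintype.card J ≤ H.sgp.betti k 1 := by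
  have hw : ∀ d : Fin 8 →₀ ℕ, H.sgp.wt d = (∑ i, d i) * g + (∑ i, d i * B.u i) * p +
      (∑ i, d i * B.v i) * q + (∑ i, d i * B.w i) * r := fun d => B.sum_gen g p q r d
  have k0 : ∀ d : Fin 8 →₀ ℕ, ∑ i, d i * B.w i = 0 →
      ∀ i, i ∉ Finset.univ.filter (fun i => B.w i = 0) → d i = 0 := fun d hd i hi => by
    have := Finset.sum_eq_zero_iff.1 hd i (Finset.mem_univ i)
    simp only [Finset.mem_filter, Finset.mem_univ, true_and] at hi
    exact (mul_eq_zero.1 this).resolve_right hi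
  have k1 : ∀ d : Fin 8 →₀ ℕ, ∑ i, d i * B.w i = ∑ i, d i →
      ∀ i ∈ Finset.univ.filter (fun i => B.w i = 0), d i = 0 := fun d hd i hi => by
    have := (Finset.sum_eq_sum_iff_of_le fun i _ =>
      (Nat.mul_le_mul_left (d i) (B.le i).2.2).trans (mul_one _).le).1 hd i (Finset.mem_univ i)
    rw [(Finset.mem_filter.1 hi).2, mul_zero] at this
    exact this.symm
  have a0 : ∀ j, ∃ d : Fin 8 →₀ ℕ, H.sgp.wt d = m j ∧
      ∀ i, i ∉ Finset.univ.filter (fun i => B.w i = 0) → d i = 0 := fun j => by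
    obtain ⟨h, x, y, hx, hy, e⟩ := h0 j
    obtain ⟨d, e0, e1, e2, e3⟩ := B.exists_fact h x y 0 hx hy h.zero_le
    exact ⟨d, by rw [hw, e0, e1, e2, e3, zero_mul, add_zero, e], k0 d e3⟩
  have a1 : ∀ j, ∃ d : Fin 8 →₀ ℕ, H.sgp.wt d = m j ∧
      ∃ i, i ∉ Finset.univ.filter (fun i => B.w i = 0) ∧ d i ≠ 0 := fun j => by
    obtain ⟨h, x, y, hh, hx, hy, e⟩ := h1 j
    obtain ⟨d, e0, e1, e2, e3⟩ := B.exists_fact h x y h hx hy le_rfl
    refine ⟨d, by rw [hw, e0, e1, e2, e3, e], ?_⟩
    obtain ⟨i, -, hi⟩ := Finset.exists_ne_zero_of_sum_ne_zero (e3.trans_ne hh.ne')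
    exact ⟨i, fun t => right_ne_zero_of_mul hi (Finset.mem_filter.1 t).2, left_ne_zero_of_mul hi⟩
  choose a ha ha' using a0
  choose b hb hb' using a1
  refine H.sgp.card_le_betti k _ m hm a b ha hb ha' hb' fun j d hd => ?_
  have t1 := sum_le d B.u fun i => (B.le i).1
  have t2 := sum_le d B.v fun i => (B.le i).2.1
  have t3 := sum_le d B.w fun i => (B.le i).2.2
  rw [hw] at hd
  have := hf j (∑ i, d i : ℕ) (∑ i, d i * B.u i : ℕ) (∑ i, d i * B.v i : ℕ)
    (∑ i, d i * B.w i : ℕ) (by unfold InCone; omega) (by exact_mod_cast hd)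
  exact this.imp (fun t => k0 d (by exact_mod_cast t)) fun t => k1 d (by exact_mod_cast t)

end Bits

end Pool.Agent.Lib.MP_36a309_al
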