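import Mathlib

/-!
Definitions for problem MP_36a309_al: numerical semigroups, the symmetric / almost symmetric /
nearly Gorenstein properties, and the Betti numbers of the semigroup ring.
-/

namespace Pool.Agent.Lib.MP_36a309_al

open CategoryTheory

universe u

/-- A numerical semigroup of embedding dimension `e`: a submonoid of `ℕ` with finite complement,
together with the increasing list `gen 0 < ⋯ < gen (e-1)` of its minimal generators (the nonzero
elements that are not a sum of two nonzero elements). -/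
structure NumSgp (e : ℕ) where
  /-- the underlying submonoid of `ℕ` -/
  carrier : AddSubmonoid ℕ
  finite_compl : ((carrier : Set ℕ)ᶜ).Finite
  /-- the minimal generators, in increasing order -/
  gen : Fin e → ℕ
  gen_strictMono : StrictMono gen
  range_gen : Set.range gen =
    {x | x ∈ carrier ∧ x ≠ 0 ∧ ∀ a ∈ carrier, ∀ b ∈ carrier, a + b = x → a = 0 ∨ b = 0}

namespace NumSgp

variable {e : ℕ} (Γ : NumSgp e)

/-- The semigroup as a set of integers. -/
def intSet : Set ℤ := (fun n : ℕ => (n : ℤ)) '' (Γ.carrier : Set ℕ)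

/-- The Frobenius number: the largest integer outside the semigroup. -/
noncomputable def frob : ℤ := sSup ((Γ.intSet)ᶜ)

/-- `x` is a pseudo-Frobenius number. -/
def IsPF (x : ℤ) : Prop := x ∉ Γ.intSet ∧ ∀ s ∈ Γ.intSet, s ≠ 0 → x + s ∈ Γ.intSet

/-- Symmetric numerical semigroups. -/
def IsSymmetric : Prop := ∀ x : ℤ, x ∉ Γ.intSet → Γ.frob - x ∈ Γ.intSet

/-- Almost symmetric numerical semigroups. -/
def IsAlmostSymmetric : Prop :=
  ∀ x : ℤ, x ∉ Γ.intSet → Γ.frob - x ∈ Γ.intSet ∨ (Γ.IsPF x ∧ Γ.IsPF (Γ.frob - x))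

/-- Nearly Gorenstein numerical semigroups. -/
def IsNearlyGorenstein : Prop :=
  ∀ i : Fin e, ∃ p : ℤ, Γ.IsPF p ∧ ∀ q : ℤ, Γ.IsPF q → (Γ.gen i : ℤ) + p - q ∈ Γ.intSet

theorem gen_ne_zero (i : Fin e) : Γ.gen i ≠ 0 := by
  have h : Γ.gen i ∈ Set.range Γ.gen := ⟨i, rfl⟩
  rw [Γ.range_gen] at h
  exact h.2.1

theorem hasSubst (k : Type u) [Field k] :
    MvPowerSeries.HasSubst (fun i : Fin e => (PowerSeries.X : PowerSeries k) ^ Γ.gen i) := by
  apply MvPowerSeries.hasSubst_of_constantCoeff_zero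
  intro i
  change PowerSeries.constantCoeff ((PowerSeries.X : PowerSeries k) ^ Γ.gen i) = 0
  simp [Γ.gen_ne_zero i]

/-- The map `S = k[[x_1, …, x_e]] → k[[t]]`, `x_i ↦ t ^ g_i`. -/
noncomputable def param (k : Type u) [Field k] :
    MvPowerSeries (Fin e) k →ₐ[k] PowerSeries k :=
  MvPowerSeries.substAlgHom (Γ.hasSubst k)

/-- The defining ideal `I_Γ`, the kernel of `x_i ↦ t ^ g_i`. -/
noncomputable def ideal (k : Type u) [Field k] : Ideal (MvPowerSeries (Fin e) k) :=
  RingHom.ker (Γ.param k)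

/-- The Betti number `b_i(R_Γ) = dim_k Tor_i^S(R_Γ, k)`, where `S = k[[x_1, …, x_e]]`,
`R_Γ = S / I_Γ` and `k` is the residue field of `S`. -/
noncomputable def betti (k : Type u) [Field k] (i : ℕ) : ℕ :=
  Module.finrank k
    ((ModuleCat.restrictScalars (algebraMap k (MvPowerSeries (Fin e) k))).obj
      (((Tor (ModuleCat.{u} (MvPowerSeries (Fin e) k)) i).obj
          (ModuleCat.of (MvPowerSeries (Fin e) k) (MvPowerSeries (Fin e) k ⧸ Γ.ideal k))).obj
        (ModuleCat.of (MvPowerSeries (Fin e) k)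
          (IsLocalRing.ResidueField (MvPowerSeries (Fin e) k)))))

end NumSgp

end Pool.Agent.Lib.MP_36a309_al
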