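import Pool.Agent.Lib.MP_36a309_al.CubeGen
import Pool.Agent.Lib.MP_d25c28_al.Cube

/-!
Almost symmetric, not symmetric semigroups of embedding dimension 8 with many relations.
-/

set_option autoImplicit false

namespace Pool.Agent.Lib.MP_36a309_al.FamA

open Pool.Agent.Lib.MP_d25c28_al (InS InQ Hole frob)

universe u

/-- The binary enumeration of the vertices of the cube. -/
def bits : Bits where
  u := ![0, 0, 0, 0, 1, 1, 1, 1]
  v := ![0, 0, 1, 1, 0, 0, 1, 1]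
  w := ![0, 1, 0, 1, 0, 1, 0, 1]
  le := by decide
  ex := fun a b c ha hb hc => by
    interval_cases a <;> interval_cases b <;> interval_cases c <;> decide

theorem crep_iff (N : ℕ) (m : ℤ) :
    CRep (2 * N ^ 3 + 2 * N ^ 2 + N : ℕ) (2 * N ^ 2 + 2 * N : ℕ) (2 * N + 1 : ℕ) (1 : ℕ) m ↔
      InS N m := by
  refine exists₄_congr fun h x y z => and_congr Iff.rfl ?_
  have e : h * (2 * N ^ 3 + 2 * N ^ 2 + N : ℕ) + x * (2 * N ^ 2 + 2 * N : ℕ) +
      y * (2 * N + 1 : ℕ) + z * (1 : ℕ) = MP_d25c28_al.val N h x y z := by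
    push_cast
    simp only [MP_d25c28_al.val]
    ring
  rw [e, eq_comm]

theorem ok {N : ℕ} (hN : 2 ≤ N) :
    bits.Ok (2 * N ^ 3 + 2 * N ^ 2 + N) (2 * N ^ 2 + 2 * N) (2 * N + 1) 1 (frob N) := by
  have hN' : (1 : ℤ) ≤ N := by omega
  have h2 : 2 * N ≤ N ^ 2 := by nlinarith
  have h3 : 2 * N ^ 2 ≤ N ^ 3 := by nlinarith
  refine ⟨by omega, ?_, fun m hm => (crep_iff N m).2 (MP_d25c28_al.inS_of_gt hN' hm),
    fun h => MP_d25c28_al.frob_not_inS hN' ((crep_iff N _).1 h)⟩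
  rw [Fin.strictMono_iff_lt_succ]
  intro i
  fin_cases i <;> simp [Bits.gen, bits] <;> omega

theorem mem {N : ℕ} (hN : 2 ≤ N) (m : ℤ) : m ∈ (ok hN).sgp.intSet ↔ InS N m :=
  ((ok hN).mem m).trans (crep_iff N m)

theorem isPF_iff {N : ℕ} (hN : 2 ≤ N) (x : ℤ) : (ok hN).sgp.IsPF x ↔ x = frob N ∨ Hole N x := by
  have hN' : (1 : ℤ) ≤ N := by omega
  simp only [NumSgp.IsPF, mem hN]
  constructor
  · rintro ⟨h1, h2⟩
    rcases MP_d25c28_al.cover hN' x with h | h | h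
    · exact absurd h h1
    · left
      by_contra hne
      have h3 := h2 _ h (by omega)
      rw [add_sub_cancel] at h3
      exact MP_d25c28_al.frob_not_inS hN' h3
    · exact Or.inr h
  · rintro (rfl | h)
    · refine ⟨MP_d25c28_al.frob_not_inS hN', fun s hs hs0 => ?_⟩
      have := MP_d25c28_al.inS_nonneg hN' hs
      exact MP_d25c28_al.inS_of_gt hN' (by omega)
    · exact ⟨MP_d25c28_al.hole_not_inS hN' h, fun s hs hs0 => MP_d25c28_al.hole_add h hs hs0⟩

theorem almost {N : ℕ} (hN : 2 ≤ N) : (ok hN).sgp.IsAlmostSymmetric := by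
  intro x hx
  rw [(ok hN).frob_eq, mem hN, isPF_iff hN, isPF_iff hN]
  rw [mem hN] at hx
  rcases MP_d25c28_al.cover (N := N) (by omega) x with h | h | h
  · exact absurd h hx
  · exact Or.inl h
  · exact Or.inr ⟨Or.inr h, Or.inr (MP_d25c28_al.hole_symm h)⟩

theorem not_symm {N : ℕ} (hN : 2 ≤ N) : ¬ (ok hN).sgp.IsSymmetric := by
  have hN' : (1 : ℤ) ≤ N := by omega
  intro h
  have h1 : Hole N (MP_d25c28_al.val N (N - 1) N 0 0) := ⟨0, le_rfl, by omega, Or.inr rfl⟩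
  have h2 := h _ fun t => MP_d25c28_al.hole_not_inS hN' h1 ((mem hN _).1 t)
  rw [(ok hN).frob_eq, mem hN] at h2
  exact MP_d25c28_al.hole_not_inS hN' (MP_d25c28_al.hole_symm h1) h2

theorem nearly {N : ℕ} (hN : 2 ≤ N) : (ok hN).sgp.IsNearlyGorenstein := by
  intro i
  have hg : ((ok hN).sgp.gen i : ℤ) ∈ (ok hN).sgp.intSet :=
    ⟨_, AddSubmonoid.subset_closure (Set.mem_range_self i), rfl⟩
  refine ⟨frob N, (isPF_iff hN _).2 (.inl rfl), fun q hq => ?_⟩
  have h := almost hN q hq.1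
  rw [(ok hN).frob_eq] at h
  rw [add_sub_assoc]
  rcases h with h | h
  · exact (mem hN _).2 (MP_d25c28_al.inS_add ((mem hN _).1 hg) ((mem hN _).1 h))
  · rw [add_comm _ (frob N - q)]
    exact h.2.2 _ hg (Nat.cast_ne_zero.2 ((ok hN).sgp.gen_ne_zero i))

theorem fibre {N s h a b c : ℤ} (hN : 2 ≤ N) (h0 : 1 ≤ s) (h0' : s ≤ N) (hc : InCone h a b c)
    (he : MP_d25c28_al.val N h a b c = MP_d25c28_al.val N N s 0 0) : c = 0 ∨ c = h := by
  obtain ⟨h1, h2, h3, h4, h5, h6⟩ := hc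
  obtain ⟨i, rfl⟩ : ∃ i, h = N + i := ⟨h - N, by ring⟩
  obtain ⟨j, rfl⟩ : ∃ j, a = s - N * i + j := ⟨a - (s - N * i), by ring⟩
  obtain ⟨k, rfl⟩ : ∃ k, b = -(N * j) + k := ⟨b + N * j, by ring⟩
  have hc : c = -(N * i) - N * j - 2 * (N * k) - k := by
    simp only [MP_d25c28_al.val] at he
    linear_combination he
  have mono : ∀ t : ℤ, (1 ≤ t → N ≤ N * t ∧ 2 * t ≤ N * t) ∧ (t = 0 → N * t = 0) ∧
      (t ≤ -1 → N * t ≤ -N ∧ N * t ≤ 2 * t) ∧ (t = -1 → N * t = -N) ∧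
      (t ≤ -2 → N * t ≤ -2 * N ∧ N * t ≤ t - N + 1) := by
    intro t
    refine ⟨fun ht => ⟨by nlinarith, by nlinarith⟩, fun ht => by simp [ht],
      fun ht => ⟨by nlinarith, by nlinarith⟩, fun ht => by simp [ht],
      fun ht => ⟨by nlinarith, by nlinarith⟩⟩
  have hi := mono i
  have hj := mono j
  have hk := mono k
  generalize N * i = Ni at *
  generalize N * j = Nj at *
  generalize N * k = Nk at *
  omega

theorem betti (k : Type u) [Field k] {N : ℕ} (hN : 2 ≤ N) : N ≤ (ok hN).sgp.betti k 1 := by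
  have h := (ok hN).betti k (J := Fin N)
    (fun j => N * (2 * N ^ 3 + 2 * N ^ 2 + N) + (j + 1) * (2 * N ^ 2 + 2 * N)) ?_
    (fun j => ⟨N, j + 1, 0, j.2, N.zero_le, by ring⟩)
    (fun j => ⟨N, j, N, by omega, j.2.le, le_rfl, by ring⟩) ?_
  · simpa using h
  · intro j j' hj
    have := Nat.eq_of_mul_eq_mul_right (by omega) (Nat.add_left_cancel hj)
    exact Fin.ext (by omega)
  · intro j h x y z hc hv
    have hj := j.2
    refine fibre (N := N) (s := (j : ℕ) + 1) (by omega) (by omega) (by omega) hc ?_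
    push_cast at hv
    simp only [MP_d25c28_al.val]
    linear_combination hv

end Pool.Agent.Lib.MP_36a309_al.FamA
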