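import Pool.Agent.Lib.MP_36a309_al.CubeGen
import Pool.Agent.Lib.MP_36a309_al.ArithB

/-!
Nearly Gorenstein semigroups of embedding dimension 8 and type 2 that are not almost symmetric
and have many relations.
-/

set_option autoImplicit false

namespace Pool.Agent.Lib.MP_36a309_al.FamB

universe u

/-- The enumeration of the vertices of the cube in the order of the generators. -/
def bits : Bits where
  u := ![0, 1, 0, 0, 1, 1, 0, 1]
  v := ![0, 0, 0, 1, 0, 1, 1, 1]
  w := ![0, 0, 1, 0, 1, 0, 1, 1]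
  le := by decide
  ex := fun a b c ha hb hc => by
    interval_cases a <;> interval_cases b <;> interval_cases c <;> decide

theorem crep_iff (n : ℕ) (m : ℤ) :
    CRep ((n + 1) * n ^ 2 + (n + 1) ^ 3 : ℕ) (n ^ 2 : ℕ) ((n + 1) ^ 2 : ℕ) (n * (n + 1) : ℕ) m ↔
      Rp n m := by
  simp only [CRep, Rp, vl]
  push_cast
  rfl

theorem rp_of_gt {n m : ℤ} (hn : 2 ≤ n) (hm : pf n + n ^ 2 < m) : Rp n m := by
  have := sq_nonneg n
  rcases cover hn m with h | h | h
  · exact h
  · have := rp_nonneg hn h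
    omega
  · have := rp_nonneg hn h
    omega

theorem not_rp0 {n : ℤ} (hn : 2 ≤ n) : ¬ Rp n (pf n) := by
  simpa using not_rp hn le_rfl zero_le_one

theorem not_rp1 {n : ℤ} (hn : 2 ≤ n) : ¬ Rp n (pf n + n ^ 2) := by
  simpa using not_rp hn zero_le_one le_rfl

theorem ok {n : ℕ} (hn : 2 ≤ n) : bits.Ok ((n + 1) * n ^ 2 + (n + 1) ^ 3) (n ^ 2) ((n + 1) ^ 2)
    (n * (n + 1)) (pf n + n ^ 2) := by
  have hn' : (2 : ℤ) ≤ n := by omega
  have h3 : 0 < n ^ 3 := by positivity
  refine ⟨by nlinarith, ?_, fun m hm => (crep_iff n m).2 (rp_of_gt hn' hm),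
    fun h => not_rp1 hn' ((crep_iff n _).1 h)⟩
  rw [Fin.strictMono_iff_lt_succ]
  intro i
  fin_cases i <;> simp [Bits.gen, bits] <;> nlinarith

theorem mem {n : ℕ} (hn : 2 ≤ n) (m : ℤ) : m ∈ (ok hn).sgp.intSet ↔ Rp n m :=
  ((ok hn).mem m).trans (crep_iff n m)

theorem ge {n : ℕ} (hn : 2 ≤ n) {m : ℤ} (hm : Rp n m) : m = 0 ∨ (n : ℤ) ^ 2 < m := by
  refine ((ok hn).ge ((mem hn m).2 hm)).imp_right fun h => lt_of_lt_of_le ?_ h
  have := (ok hn).lt
  exact_mod_cast (by omega : n ^ 2 < (n + 1) * n ^ 2 + (n + 1) ^ 3)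

theorem isPF_iff {n : ℕ} (hn : 2 ≤ n) (x : ℤ) :
    (ok hn).sgp.IsPF x ↔ x = pf n ∨ x = pf n + n ^ 2 := by
  have hn' : (2 : ℤ) ≤ n := by omega
  have h0 := sq_nonneg (n : ℤ)
  simp only [NumSgp.IsPF, mem hn]
  constructor
  · rintro ⟨h1, h2⟩
    rcases cover hn' x with h | h | h
    · exact absurd h h1
    · left
      by_contra hne
      have h3 := h2 _ h (by omega)
      rw [add_sub_cancel] at h3
      exact not_rp0 hn' h3
    · right
      by_contra hne
      have h3 := h2 _ h (by omega)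
      rw [add_sub_cancel] at h3
      exact not_rp1 hn' h3
  · rintro (rfl | rfl)
    · refine ⟨not_rp0 hn', fun s hs hs0 => rp_of_gt hn' ?_⟩
      have := ge hn hs
      omega
    · refine ⟨not_rp1 hn', fun s hs hs0 => rp_of_gt hn' ?_⟩
      have := ge hn hs
      omega

theorem type_eq {n : ℕ} (hn : 2 ≤ n) : {x : ℤ | (ok hn).sgp.IsPF x}.ncard = 2 := by
  have h0 : (0 : ℤ) < (n : ℤ) ^ 2 := by positivity
  refine Set.ncard_eq_two.2 ⟨pf n, pf n + n ^ 2, by omega, ?_⟩
  ext x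
  exact isPF_iff hn x

theorem not_almost {n : ℕ} (hn : 2 ≤ n) : ¬ (ok hn).sgp.IsAlmostSymmetric := by
  have hn' : (2 : ℤ) ≤ n := by omega
  have h0 : (0 : ℤ) < (n : ℤ) ^ 2 := by positivity
  have hF : (n : ℤ) ^ 2 < pf n := by
    have e : pf n = 4 * (n : ℤ) ^ 4 + 10 * n ^ 3 + 5 * n ^ 2 - 1 := by
      unfold pf vl
      ring
    have : (0 : ℤ) < (n : ℤ) ^ 4 := by positivity
    have : (0 : ℤ) < (n : ℤ) ^ 3 := by positivity
    omega
  intro h
  have h1 := h _ fun t => not_rp0 hn' ((mem hn _).1 t)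
  rw [(ok hn).frob_eq, add_sub_cancel_left, mem hn, isPF_iff hn, isPF_iff hn] at h1
  rcases h1 with h1 | ⟨-, h1⟩
  · have := ge hn h1
    omega
  · omega

theorem nearly {n : ℕ} (hn : 2 ≤ n) : (ok hn).sgp.IsNearlyGorenstein := by
  intro i
  obtain ⟨h1, h2, h3⟩ := bits.le i
  have e : ((ok hn).sgp.gen i : ℤ) = vl n 1 (bits.u i) (bits.v i) (bits.w i) := by
    change (bits.gen _ _ _ _ i : ℤ) = _
    simp only [Bits.gen, vl]
    push_cast
    ring
  have k : ∀ x m : ℤ, 0 ≤ x → x ≤ 1 → vl n 1 x (bits.v i) (bits.w i) = m → Rp n m :=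
    fun x m a b c => ⟨_, _, _, _, by unfold InCone; omega, c⟩
  simp only [isPF_iff hn, mem hn, e]
  rcases (by omega : bits.u i = 0 ∨ bits.u i = 1) with h | h
  · refine ⟨_, .inr rfl, ?_⟩
    rintro _ (rfl | rfl)
    · exact k 1 _ zero_le_one le_rfl (by rw [h]; unfold vl; push_cast; ring)
    · rw [add_sub_cancel_right]
      exact k _ _ (by omega) (by omega) rfl
  · refine ⟨_, .inl rfl, ?_⟩
    rintro _ (rfl | rfl)
    · rw [add_sub_cancel_right]
      exact k _ _ (by omega) (by omega) rfl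
    · exact k 0 _ le_rfl zero_le_one (by rw [h]; unfold vl; push_cast; ring)

theorem betti (k : Type u) [Field k] {n : ℕ} (hn : 2 ≤ n) : n ≤ (ok hn).sgp.betti k 1 := by
  have h := (ok hn).betti k (J := Fin n)
    (fun j => (n + 1) * ((n + 1) * n ^ 2 + (n + 1) ^ 3) + n * (n + 1) ^ 2 + (j + 1) * n ^ 2) ?_
    (fun j => ⟨n + 1, j + 1, n, by omega, by omega, by ring⟩)
    (fun j => ⟨n + 1, j + 1, 0, by omega, by omega, by omega, by ring⟩) ?_
  · simpa using h
  · intro j j' hj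
    have := Nat.eq_of_mul_eq_mul_right (by positivity) (Nat.add_left_cancel hj)
    exact Fin.ext (by omega)
  · intro j h x y z hc hv
    have hj := j.2
    refine fibre (n := n) (r := (j : ℕ) + 1) (by omega) (by omega) (by omega) hc ?_
    push_cast at hv
    unfold vl
    linear_combination hv

end Pool.Agent.Lib.MP_36a309_al.FamB
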