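import Pool.Agent.Lib.MP_36a309_al.Betti
import Pool.Agent.Lib.MP_36a309_al.Arith

/-!
The family of symmetric numerical semigroups of embedding dimension 8 with unbounded number of
minimal relations.
-/

namespace Pool.Agent.Lib.MP_36a309_al

universe u

/-- first coordinate of the vertices of the cube -/
def bx : Fin 8 → ℕ := ![0, 1, 0, 0, 1, 1, 0, 1]
/-- second coordinate of the vertices of the cube -/
def by' : Fin 8 → ℕ := ![0, 0, 0, 1, 0, 1, 1, 1]
/-- third coordinate of the vertices of the cube -/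
def bz : Fin 8 → ℕ := ![0, 0, 1, 0, 1, 0, 1, 1]

/-- the generators -/
def gens (N : ℕ) (i : Fin 8) : ℕ :=
  (N ^ 3 + (N + 1) ^ 3) + bx i * N ^ 2 + by' i * (N + 1) ^ 2 + bz i * (N * (N + 1))

lemma gens_cast (N : ℕ) (i : Fin 8) : (gens N i : ℤ) = val N 1 (bx i) (by' i) (bz i) := by
  unfold gens val; push_cast; ring

lemma bits_le (i : Fin 8) : bx i ≤ 1 ∧ by' i ≤ 1 ∧ bz i ≤ 1 := by
  revert i; decide

lemma exists_bits (a b c : ℕ) (ha : a ≤ 1) (hb : b ≤ 1) (hc : c ≤ 1) :
    ∃ i : Fin 8, bx i = a ∧ by' i = b ∧ bz i = c := by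
  interval_cases a <;> interval_cases b <;> interval_cases c <;> decide

/-- the semigroup -/
def sgp (N : ℕ) : AddSubmonoid ℕ := AddSubmonoid.closure (Set.range (gens N))

lemma rep_of_mem {N m : ℕ} (hm : m ∈ sgp N) : Rep N m := by
  induction hm using AddSubmonoid.closure_induction with
  | mem x hx =>
    obtain ⟨i, rfl⟩ := hx
    obtain ⟨h1, h2, h3⟩ := bits_le i
    exact ⟨1, bx i, by' i, bz i, by unfold InCone; omega, (gens_cast N i).symm⟩
  | zero => exact ⟨0, 0, 0, 0, by unfold InCone; omega, by simp [val]⟩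
  | add a b _ _ ha hb =>
    obtain ⟨h, x, y, z, hc, hv⟩ := ha
    obtain ⟨h', x', y', z', hc', hv'⟩ := hb
    refine ⟨h + h', x + x', y + y', z + z', by unfold InCone at *; omega, ?_⟩
    push_cast
    rw [← hv, ← hv']; unfold val; ring

lemma exists_mem_of_cone (N : ℕ) (h : ℕ) : ∀ x y z : ℤ, InCone h x y z →
    ∃ m ∈ sgp N, (m : ℤ) = val N h x y z := by
  induction h with
  | zero =>
    intro x y z hc
    have : x = 0 ∧ y = 0 ∧ z = 0 := by unfold InCone at hc; omega
    obtain ⟨rfl, rfl, rfl⟩ := this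
    exact ⟨0, (sgp N).zero_mem, by simp [val]⟩
  | succ h ih =>
    intro x y z hc
    obtain ⟨i, h1, h2, h3⟩ := exists_bits (if 0 < x then 1 else 0) (if 0 < y then 1 else 0)
      (if 0 < z then 1 else 0) (by split_ifs <;> omega) (by split_ifs <;> omega)
      (by split_ifs <;> omega)
    obtain ⟨m, hm, hv⟩ := ih (x - bx i) (y - by' i) (z - bz i) (by
      rw [h1, h2, h3]; unfold InCone at *; split_ifs <;> push_cast at * <;> omega)
    refine ⟨m + gens N i, (sgp N).add_mem hm (AddSubmonoid.subset_closure ⟨i, rfl⟩), ?_⟩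
    push_cast
    rw [hv, gens_cast]; unfold val; ring

lemma exists_mem_of_rep {N : ℕ} {m : ℤ} (hm : Rep N m) : ∃ m' ∈ sgp N, (m' : ℤ) = m := by
  obtain ⟨h, x, y, z, hc, hv⟩ := hm
  obtain ⟨h, rfl⟩ := Int.eq_ofNat_of_zero_le (show 0 ≤ h by unfold InCone at hc; omega)
  obtain ⟨m', hm', e⟩ := exists_mem_of_cone N h x y z hc
  exact ⟨m', hm', e.trans hv⟩

lemma gens_bounds {N : ℕ} (i : Fin 8) (hN : 2 ≤ N) :
    N ^ 3 + (N + 1) ^ 3 ≤ gens N i ∧ gens N i < 2 * (N ^ 3 + (N + 1) ^ 3) := by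
  obtain ⟨h1, h2, h3⟩ := bits_le i
  have a1 : bx i * N ^ 2 ≤ 1 * N ^ 2 := Nat.mul_le_mul_right _ h1
  have a2 : by' i * (N + 1) ^ 2 ≤ 1 * (N + 1) ^ 2 := Nat.mul_le_mul_right _ h2
  have a3 : bz i * (N * (N + 1)) ≤ 1 * (N * (N + 1)) := Nat.mul_le_mul_right _ h3
  have a4 : 0 < N ^ 3 := by positivity
  unfold gens
  constructor
  · omega
  · nlinarith

lemma ge_of_mem {N m : ℕ} (hN : 2 ≤ N) (hm : m ∈ sgp N) : m = 0 ∨ N ^ 3 + (N + 1) ^ 3 ≤ m := by
  induction hm using AddSubmonoid.closure_induction with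
  | mem x hx =>
    obtain ⟨i, rfl⟩ := hx
    exact Or.inr (gens_bounds i hN).1
  | zero => exact Or.inl rfl
  | add a b _ _ ha hb => omega

lemma range_gens {N : ℕ} (hN : 2 ≤ N) : Set.range (gens N) =
    {x | x ∈ sgp N ∧ x ≠ 0 ∧ ∀ a ∈ sgp N, ∀ b ∈ sgp N, a + b = x → a = 0 ∨ b = 0} := by
  ext x
  constructor
  · rintro ⟨i, rfl⟩
    obtain ⟨h1, h2⟩ := gens_bounds i hN
    have h0 : 0 < N ^ 3 := by positivity
    refine ⟨AddSubmonoid.subset_closure ⟨i, rfl⟩, by omega, fun a ha b hb hab => ?_⟩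
    have := ge_of_mem hN ha
    have := ge_of_mem hN hb
    omega
  · rintro ⟨hx, hx0, hx1⟩
    induction hx using AddSubmonoid.closure_induction with
    | mem x hx => exact hx
    | zero => exact absurd rfl hx0
    | add a b ha hb iha ihb =>
      rcases hx1 a ha b hb rfl with h | h
      · subst h
        rw [zero_add] at hx0 hx1 ⊢
        exact ihb hx0 hx1
      · subst h
        rw [add_zero] at hx0 hx1 ⊢
        exact iha hx0 hx1

lemma gens_strictMono {N : ℕ} (hN : 2 ≤ N) : StrictMono (gens N) := by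
  rw [Fin.strictMono_iff_lt_succ]
  intro i
  fin_cases i <;> simp [gens, bx, by', bz] <;> nlinarith

lemma rep_nonneg {N : ℕ} {m : ℤ} (hm : Rep N m) : 0 ≤ m := by
  obtain ⟨m', -, rfl⟩ := exists_mem_of_rep hm
  positivity

/-- the numerical semigroup of embedding dimension 8 -/
def fam (N : ℕ) (hN : 2 ≤ N) : NumSgp 8 where
  carrier := sgp N
  finite_compl := by
    refine (Set.finite_le_nat (frobN N).toNat).subset fun m hm => ?_
    rcases rep_or_rep (n := N) (by exact_mod_cast hN) (m : ℤ) with h | h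
    · obtain ⟨m', hm', e⟩ := exists_mem_of_rep h
      have : m' = m := by exact_mod_cast e
      exact absurd (this ▸ hm') hm
    · have := rep_nonneg h
      simp only [Set.mem_ofPred_eq]
      omega
  gen := gens N
  gen_strictMono := gens_strictMono hN
  range_gen := range_gens hN

lemma mem_intSet {N : ℕ} (hN : 2 ≤ N) (m : ℤ) : m ∈ (fam N hN).intSet ↔ Rep N m := by
  constructor
  · rintro ⟨m', hm', rfl⟩
    exact rep_of_mem hm'
  · intro h
    obtain ⟨m', hm', e⟩ := exists_mem_of_rep h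
    exact ⟨m', hm', e⟩

lemma frob_eq {N : ℕ} (hN : 2 ≤ N) : (fam N hN).frob = frobN N := by
  have hn : (2 : ℤ) ≤ N := by exact_mod_cast hN
  apply IsGreatest.csSup_eq
  constructor
  · rw [Set.mem_compl_iff, mem_intSet]
    exact not_rep_frob hn
  · intro x hx
    rw [Set.mem_compl_iff, mem_intSet] at hx
    have := rep_nonneg ((rep_or_rep hn x).resolve_left hx)
    omega

lemma fam_symmetric {N : ℕ} (hN : 2 ≤ N) : (fam N hN).IsSymmetric := by
  intro x hx
  rw [mem_intSet] at hx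
  rw [mem_intSet, frob_eq]
  exact (rep_or_rep (by exact_mod_cast hN) x).resolve_left hx

lemma fam_almostSymmetric {N : ℕ} (hN : 2 ≤ N) : (fam N hN).IsAlmostSymmetric :=
  fun x hx => Or.inl (fam_symmetric hN x hx)

lemma fam_nearlyGorenstein {N : ℕ} (hN : 2 ≤ N) : (fam N hN).IsNearlyGorenstein := by
  have hn : (2 : ℤ) ≤ N := by exact_mod_cast hN
  intro i
  refine ⟨frobN N, ⟨?_, fun s hs hs0 => ?_⟩, fun q hq => ?_⟩
  · rw [mem_intSet]; exact not_rep_frob hn
  · rw [mem_intSet] at hs ⊢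
    have h0 := rep_nonneg hs
    refine (rep_or_rep hn _).resolve_right fun h => ?_
    have := rep_nonneg h
    omega
  · have h1 := fam_symmetric hN q hq.1
    rw [frob_eq] at h1
    have h2 : frobN N - q = 0 := by
      by_contra hne
      have := hq.2 _ h1 hne
      rw [mem_intSet, add_sub_cancel] at this
      exact not_rep_frob hn this
    rw [add_sub_assoc, h2, add_zero]
    exact ⟨gens N i, AddSubmonoid.subset_closure ⟨i, rfl⟩, rfl⟩

lemma wt_cast {N : ℕ} (hN : 2 ≤ N) (d : Fin 8 →₀ ℕ) :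
    (((fam N hN).wt d : ℕ) : ℤ) =
      val N (d 0 + d 1 + d 2 + d 3 + d 4 + d 5 + d 6 + d 7) (d 1 + d 4 + d 5 + d 7)
        (d 3 + d 5 + d 6 + d 7) (d 2 + d 4 + d 6 + d 7) := by
  simp [NumSgp.wt, fam, Fin.sum_univ_eight, gens, bx, by', bz, val]
  ring

theorem fam_betti (k : Type u) [Field k] {N : ℕ} (hN : 2 ≤ N) :
    N - 1 ≤ (fam N hN).betti k 1 := by
  have hn : (2 : ℤ) ≤ N := by exact_mod_cast hN
  let m : Fin (N - 1) → ℕ := fun j =>
    (N + 1) * (N ^ 3 + (N + 1) ^ 3) + (j + 1) * N ^ 2 + (N + 1) * (N + 1) ^ 2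
  have hm : ∀ j, (m j : ℤ) = val N (N + 1) ((j : ℕ) + 1) (N + 1) 0 := by
    intro j; simp [m, val]
  have h := (fam N hN).card_le_betti k ({0, 1, 3, 5} : Finset (Fin 8)) m ?_
    (fun j => Finsupp.single 5 (j.1 + 1) + Finsupp.single 3 (N - j))
    (fun j => Finsupp.single 4 (j.1 + 1) + Finsupp.single 6 1 + Finsupp.single 2 (N - 1 - j))
    ?_ ?_ ?_ ?_ ?_
  · simpa using h
  · intro j j' hjj
    have h0 : 0 < N ^ 2 := by positivity
    have h1 : ((j : ℕ) + 1) * N ^ 2 = ((j' : ℕ) + 1) * N ^ 2 := by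
      simp only [m] at hjj; omega
    have := Nat.eq_of_mul_eq_mul_right h0 h1
    exact Fin.ext (by omega)
  · intro j
    have hj := j.2
    have : (((fam N hN).wt (Finsupp.single 5 (j.1 + 1) + Finsupp.single 3 (N - j)) : ℕ) : ℤ) =
        m j := by
      rw [wt_cast, hm]
      have e : ((N - j : ℕ) : ℤ) = N - (j : ℕ) := by omega
      simp [e, val]
      ring
    exact_mod_cast this
  · intro j
    have hj := j.2
    have : (((fam N hN).wt (Finsupp.single 4 (j.1 + 1) + Finsupp.single 6 1 +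
        Finsupp.single 2 (N - 1 - j)) : ℕ) : ℤ) = m j := by
      rw [wt_cast, hm]
      have e : ((N - 1 - j : ℕ) : ℤ) = N - 1 - (j : ℕ) := by omega
      simp [e, val]
      ring
    exact_mod_cast this
  · intro j i hi
    fin_cases i <;> simp at hi ⊢
  · intro j
    exact ⟨6, by decide, by simp⟩
  · intro j d hd
    have hj := j.2
    have hv := wt_cast hN d
    rw [hd, hm] at hv
    have := betti_fibre (r := (j : ℕ) + 1) hn (by omega) (by omega) (by unfold InCone; omega)
      hv.symm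
    rcases this with h | h
    · left
      intro i hi
      fin_cases i <;> simp at hi ⊢ <;> omega
    · right
      intro i hi
      fin_cases i <;> simp at hi ⊢ <;> omega

end Pool.Agent.Lib.MP_36a309_al
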